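import Mathlib

/-!
# Asymptotic estimates (helper1, MP_028722_nt)
-/

namespace Pool.Agent.H1.LI

open Filter Topology

lemma factorial_le' (m : ℕ) (hm : 1 ≤ m) :
    (m.factorial : ℝ) ≤ (m : ℝ) ^ (m + 1) * Real.exp (1 - m) := by
  induction m, hm using Nat.le_induction with
  | base => simp
  | succ m hm ih =>
    have hm0 : (0 : ℝ) < m := by exact_mod_cast hm
    have h1 : (1 : ℝ) ≤ (m + 1) * Real.log (((m : ℝ) + 1) / m) := by
      have h2 := Real.one_sub_inv_le_log_of_pos (x := ((m : ℝ) + 1) / m) (by positivity)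
      have h3 : (1 : ℝ) - (((m : ℝ) + 1) / m)⁻¹ = 1 / (m + 1) := by
        field_simp
        ring
      rw [h3] at h2
      calc (1 : ℝ) = (m + 1) * (1 / (m + 1)) := by field_simp
        _ ≤ _ := mul_le_mul_of_nonneg_left h2 (by positivity)
    have h4 : Real.exp 1 * (m : ℝ) ^ (m + 1) ≤ ((m : ℝ) + 1) ^ (m + 1) := by
      have h5 : Real.exp 1 ≤ (((m : ℝ) + 1) / m) ^ (m + 1) := by
        rw [← Real.le_log_iff_exp_le (by positivity), Real.log_pow]
        push_cast
        exact h1
      rw [div_pow, le_div_iff₀ (by positivity)] at h5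
      exact h5
    rw [Nat.factorial_succ]
    push_cast
    have h6 : Real.exp (1 - ((m : ℝ) + 1)) * Real.exp 1 = Real.exp (1 - m) := by
      rw [← Real.exp_add]; ring_nf
    calc ((m : ℝ) + 1) * m.factorial ≤ (m + 1) * ((m : ℝ) ^ (m + 1) * Real.exp (1 - m)) :=
          mul_le_mul_of_nonneg_left ih (by positivity)
      _ = (m + 1) * Real.exp (1 - ((m : ℝ) + 1)) * (Real.exp 1 * (m : ℝ) ^ (m + 1)) := by
          rw [← h6]; ring
      _ ≤ (m + 1) * Real.exp (1 - ((m : ℝ) + 1)) * ((m : ℝ) + 1) ^ (m + 1) :=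
          mul_le_mul_of_nonneg_left h4 (by positivity)
      _ = _ := by ring

/-- Lower bound for the binomial coefficient. -/
lemma log_choose_ge (h m : ℕ) (hm : 1 ≤ m) (hmh : m ≤ h) :
    m * Real.log ((h : ℝ) + 1 - m) - (m + 1) * Real.log m + m - 1 ≤ Real.log (h.choose m) := by
  have hm0 : (0 : ℝ) < m := by exact_mod_cast hm
  have hch : 0 < h.choose m := Nat.choose_pos hmh
  have h1 : ((h : ℝ) + 1 - m) ^ m ≤ h.choose m * m.factorial := by
    have h2 := Nat.pow_sub_le_descFactorial h m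
    rw [Nat.descFactorial_eq_factorial_mul_choose] at h2
    have h3 : (((h + 1 - m : ℕ) : ℝ)) ^ m ≤ ((m.factorial * h.choose m : ℕ) : ℝ) := by
      exact_mod_cast h2
    rw [Nat.cast_sub (by omega)] at h3
    push_cast at h3
    linarith
  have h4 : (0 : ℝ) < (h : ℝ) + 1 - m := by
    have : (m : ℝ) ≤ h := by exact_mod_cast hmh
    linarith
  have h5 : m * Real.log ((h : ℝ) + 1 - m) ≤ Real.log (h.choose m) + Real.log m.factorial := by
    rw [← Real.log_pow, ← Real.log_mul (by positivity) (by positivity)]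
    exact Real.log_le_log (by positivity) h1
  have h6 : Real.log m.factorial ≤ (m + 1) * Real.log m + (1 - m) := by
    have h7 := Real.log_le_log (by positivity) (factorial_le' m hm)
    rw [Real.log_mul (by positivity) (by positivity), Real.log_exp, Real.log_pow] at h7
    push_cast at h7
    exact h7
  linarith

/-- The exponent function. -/
lemma tendsto_exponent (a C : ℝ) (ha : 0 < a) (hC : 0 < C) :
    Tendsto (fun x : ℕ =>
      ((⌊a * Real.log x⌋₊ : ℝ) * Real.log ((⌊C * (Real.log x) ^ 2⌋₊ : ℝ) + 1 - ⌊a * Real.log x⌋₊)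
        - (⌊a * Real.log x⌋₊ + 1) * Real.log ⌊a * Real.log x⌋₊ + ⌊a * Real.log x⌋₊ - 1
        - ⌊a * Real.log x⌋₊ * Real.log (Real.log ((x : ℝ) + ⌊C * (Real.log x) ^ 2⌋₊)))
        / Real.log x) atTop (𝓝 (a * (1 + Real.log (C / a)))) := by
  have hlog : Tendsto (fun x : ℕ => Real.log (x : ℝ)) atTop atTop :=
    Real.tendsto_log_atTop.comp tendsto_natCast_atTop_atTop
  set L : ℕ → ℝ := fun x => Real.log (x : ℝ) with hL
  set m : ℕ → ℝ := fun x => (⌊a * L x⌋₊ : ℝ) with hm
  set h : ℕ → ℝ := fun x => (⌊C * (L x) ^ 2⌋₊ : ℝ) with hh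
  have hm1 : Tendsto (fun x => m x / L x) atTop (𝓝 a) :=
    (tendsto_nat_floor_mul_div_atTop ha.le).comp hlog
  have hL2 : Tendsto (fun x => (L x) ^ 2) atTop atTop := (tendsto_pow_atTop two_ne_zero).comp hlog
  have hh1 : Tendsto (fun x => h x / (L x) ^ 2) atTop (𝓝 C) :=
    (tendsto_nat_floor_mul_div_atTop hC.le).comp hL2
  have hLpos : ∀ᶠ x in atTop, 0 < L x := hlog.eventually_gt_atTop 0
  have hLinv : Tendsto (fun x => (L x)⁻¹) atTop (𝓝 0) := tendsto_inv_atTop_zero.comp hlog
  -- `log (x + h) / log x → 1`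
  have hquot : Tendsto (fun x : ℕ => Real.log ((x : ℝ) + h x) / L x) atTop (𝓝 1) := by
    have hlx : ∀ᶠ x : ℕ in atTop, h x ≤ x := by
      have h1 : Tendsto (fun x : ℕ => (L x) ^ 2 / (x : ℝ)) atTop (𝓝 0) := by
        have := (isLittleO_log_rpow_rpow_atTop (s := 1) 2 one_pos).tendsto_div_nhds_zero
        have h2 := this.comp tendsto_natCast_atTop_atTop
        refine h2.congr (fun x => ?_)
        simp only [Function.comp, Real.rpow_one, hL]
        norm_cast
      have h2 : ∀ᶠ x : ℕ in atTop, (L x) ^ 2 / (x : ℝ) < 1 / C := by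
        apply h1.eventually (gt_mem_nhds _)
        positivity
      filter_upwards [h2, eventually_gt_atTop 0] with x hx hx0
      have hx0' : (0 : ℝ) < x := by exact_mod_cast hx0
      rw [div_lt_div_iff₀ hx0' hC] at hx
      calc h x ≤ C * (L x) ^ 2 := Nat.floor_le (by positivity)
        _ ≤ x := by nlinarith
    have hlog2 : Tendsto (fun x => 1 + Real.log 2 * (L x)⁻¹) atTop (𝓝 1) := by
      have := (hLinv.const_mul (Real.log 2)).const_add 1
      simpa using this
    apply tendsto_of_tendsto_of_tendsto_of_le_of_le' tendsto_const_nhds hlog2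
    · filter_upwards [hLpos, eventually_gt_atTop 0] with x hx hx0
      have hx0' : (0 : ℝ) < x := by exact_mod_cast hx0
      rw [le_div_iff₀ hx, one_mul]
      apply Real.log_le_log hx0'
      have : (0 : ℝ) ≤ h x := Nat.cast_nonneg _
      linarith
    · filter_upwards [hLpos, eventually_gt_atTop 0, hlx] with x hx hx0 hlx
      have hx0' : (0 : ℝ) < x := by exact_mod_cast hx0
      rw [div_le_iff₀ hx]
      have h3 : Real.log ((x : ℝ) + h x) ≤ Real.log (2 * x) := by
        apply Real.log_le_log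
        · have : (0 : ℝ) ≤ h x := Nat.cast_nonneg _
          linarith
        · linarith
      rw [Real.log_mul (by norm_num) hx0'.ne'] at h3
      have : (1 + Real.log 2 * (L x)⁻¹) * L x = Real.log 2 + L x := by
        field_simp
        ring
      rw [this]
      exact h3
  -- the ratio inside the logarithm
  set ρ : ℕ → ℝ := fun x => (h x / (L x) ^ 2 + (L x)⁻¹ ^ 2 - m x / L x * (L x)⁻¹) /
    (m x / L x * (Real.log ((x : ℝ) + h x) / L x)) with hρ
  have hρlim : Tendsto ρ atTop (𝓝 (C / a)) := by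
    have h1 : Tendsto (fun x => h x / (L x) ^ 2 + (L x)⁻¹ ^ 2 - m x / L x * (L x)⁻¹) atTop
        (𝓝 (C + 0 ^ 2 - a * 0)) := (hh1.add (hLinv.pow 2)).sub (hm1.mul hLinv)
    have h2 : Tendsto (fun x : ℕ => m x / L x * (Real.log ((x : ℝ) + h x) / L x)) atTop
        (𝓝 (a * 1)) := hm1.mul hquot
    have h3 : C + 0 ^ 2 - a * 0 = C := by ring
    rw [h3] at h1
    rw [mul_one] at h2
    exact h1.div h2 ha.ne'
  have hlogρ : Tendsto (fun x => Real.log (ρ x)) atTop (𝓝 (Real.log (C / a))) :=
    (Real.continuousAt_log (by positivity)).tendsto.comp hρlim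
  have hmlim : Tendsto m atTop atTop := by
    have : Tendsto (fun x => m x / L x * L x) atTop atTop := hm1.pos_mul_atTop ha hlog
    apply this.congr'
    filter_upwards [hLpos] with x hx
    field_simp
  have hlogm : Tendsto (fun x => Real.log (m x) / L x) atTop (𝓝 0) := by
    have h1 : Tendsto (fun x => Real.log (m x) / m x) atTop (𝓝 0) := by
      have := (Real.isLittleO_log_id_atTop).tendsto_div_nhds_zero
      exact this.comp hmlim
    have h2 := h1.mul hm1
    rw [zero_mul] at h2
    apply h2.congr'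
    filter_upwards [hmlim.eventually_gt_atTop 0, hLpos] with x hx hx2
    field_simp
  have hfin : Tendsto (fun x => m x / L x * (1 + Real.log (ρ x)) - Real.log (m x) / L x - (L x)⁻¹)
      atTop (𝓝 (a * (1 + Real.log (C / a)) - 0 - 0)) :=
    ((hm1.mul (hlogρ.const_add 1)).sub hlogm).sub hLinv
  rw [sub_zero, sub_zero] at hfin
  apply hfin.congr'
  have hh2 : Tendsto (fun x => (h x + 1 - m x) / (L x) ^ 2) atTop (𝓝 C) := by
    have h1 : Tendsto (fun x => h x / (L x) ^ 2 + (L x)⁻¹ ^ 2 - m x / L x * (L x)⁻¹) atTop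
        (𝓝 (C + 0 ^ 2 - a * 0)) := (hh1.add (hLinv.pow 2)).sub (hm1.mul hLinv)
    have h2 : C + 0 ^ 2 - a * 0 = C := by ring
    rw [h2] at h1
    apply h1.congr'
    filter_upwards [hLpos] with x hx
    field_simp
  have hpos : ∀ᶠ x in atTop, 0 < (h x + 1 - m x) / (L x) ^ 2 :=
    hh2.eventually (lt_mem_nhds hC)
  filter_upwards [hpos, hLpos, hmlim.eventually_gt_atTop 0, hlog.eventually_gt_atTop 1]
    with x h1 h2 h3 h4
  have h5 : 0 < h x + 1 - m x := by
    by_contra hcon
    push Not at hcon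
    have : (h x + 1 - m x) / (L x) ^ 2 ≤ 0 := div_nonpos_of_nonpos_of_nonneg hcon (by positivity)
    linarith
  have hx1 : (1 : ℝ) < x := by
    by_contra hcon
    push Not at hcon
    have := Real.log_nonpos (Nat.cast_nonneg x) hcon
    rw [hL] at h4
    simp only at h4
    linarith
  have h6 : 0 < Real.log ((x : ℝ) + h x) := by
    apply Real.log_pos
    have : (0 : ℝ) ≤ h x := Nat.cast_nonneg _
    linarith
  have h7 : ρ x = (h x + 1 - m x) / (m x * Real.log ((x : ℝ) + h x)) := by
    rw [hρ]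
    simp only
    field_simp
  have h8 : Real.log (ρ x) = Real.log (h x + 1 - m x) - Real.log (m x) -
      Real.log (Real.log ((x : ℝ) + h x)) := by
    rw [h7, Real.log_div h5.ne' (by positivity), Real.log_mul h3.ne' h6.ne']
    ring
  rw [h8]
  change _ = (m x * Real.log (h x + 1 - m x) - (m x + 1) * Real.log (m x) + m x - 1
    - m x * Real.log (Real.log ((x : ℝ) + h x))) / L x
  field_simp
  ring

end Pool.Agent.H1.LI
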