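import Mathlib

/-!
# Block laws with limited independence (helper1, MP_028722_nt)

For a finite set `B` of indices and parameters `p n`, we construct laws of random subsets of `B`
whose inclusion events have probabilities `p n` and are `D`-wise independent, while the
probability of the empty set is as large as `c ^ D * exp (- c ^ 2 * ∑ p n - ...)`.
-/

namespace Pool.Agent.H1.LI

open Finset

/-- Expectation of `f` under the product law with parameters `p` on the subsets of `B`. -/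
noncomputable def Ex (B : Finset ℕ) (p : ℕ → ℝ) (f : Finset ℕ → ℝ) : ℝ :=
  ∑ S ∈ B.powerset, f S * ((∏ n ∈ S, p n) * ∏ n ∈ B \ S, (1 - p n))

/-- The product law of the supersets of `T`. -/
lemma sum_superset {R : Type*} [CommRing R] (B : Finset ℕ) (q : ℕ → R) {T : Finset ℕ}
    (hT : T ⊆ B) :
    ∑ S ∈ B.powerset, (if T ⊆ S then (1 : R) else 0) *
      ((∏ n ∈ S, q n) * ∏ n ∈ B \ S, (1 - q n)) = ∏ n ∈ T, q n := by
  classical
  have h1 : ∏ n ∈ B, (q n + (if n ∈ T then 0 else 1 - q n)) = ∏ n ∈ T, q n := by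
    rw [← Finset.prod_sdiff hT]
    have h2 : ∏ n ∈ B \ T, (q n + (if n ∈ T then 0 else 1 - q n)) = 1 := by
      apply Finset.prod_eq_one
      intro n hn
      rw [Finset.mem_sdiff] at hn
      simp [hn.2]
    have h3 : ∏ n ∈ T, (q n + (if n ∈ T then 0 else 1 - q n)) = ∏ n ∈ T, q n := by
      apply Finset.prod_congr rfl
      intro n hn
      simp [hn]
    rw [h2, h3, one_mul]
  rw [← h1, Finset.prod_add]
  apply Finset.sum_congr rfl
  intro S hS
  rw [Finset.mem_powerset] at hS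
  by_cases hTS : T ⊆ S
  · rw [if_pos hTS, one_mul]
    congr 1
    apply Finset.prod_congr rfl
    intro n hn
    rw [Finset.mem_sdiff] at hn
    rw [if_neg (fun h => hn.2 (hTS h))]
  · rw [if_neg hTS, zero_mul]
    obtain ⟨n, hnT, hnS⟩ := Finset.not_subset.mp hTS
    symm
    apply mul_eq_zero_of_right
    apply Finset.prod_eq_zero (i := n)
    · rw [Finset.mem_sdiff]; exact ⟨hT hnT, hnS⟩
    · rw [if_pos hnT]

/-- Lower bound in the trivial case `c = 1`. -/
lemma prod_one_sub_ge (B : Finset ℕ) (p : ℕ → ℝ) (hp0 : ∀ n ∈ B, 0 ≤ p n)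
    (hp : ∀ n ∈ B, p n ≤ 1 / 2) :
    Real.exp (-(∑ n ∈ B, p n + 2 * ∑ n ∈ B, p n ^ 2)) ≤ ∏ n ∈ B, (1 - p n) := by
  rw [Finset.mul_sum, ← Finset.sum_add_distrib, ← Finset.sum_neg_distrib, Real.exp_sum]
  apply Finset.prod_le_prod
  · intro n _; positivity
  · intro n hn
    have h0 := hp0 n hn
    have h1 := hp n hn
    have h2 : (0 : ℝ) < 1 - p n := by linarith
    rw [← Real.le_log_iff_exp_le h2]
    have h3 : 1 - (1 - p n)⁻¹ ≤ Real.log (1 - p n) := Real.one_sub_inv_le_log_of_pos h2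
    refine le_trans ?_ h3
    have h4 : (1 - p n)⁻¹ = 1 + p n + p n ^ 2 / (1 - p n) := by
      field_simp; ring
    rw [h4]
    have h5 : p n ^ 2 / (1 - p n) ≤ 2 * p n ^ 2 := by
      rw [div_le_iff₀ h2]
      nlinarith [sq_nonneg (p n)]
    linarith

lemma norm_one_sub_le (x : ℝ) (z : ℂ) (hz : ‖z‖ ≤ 1) :
    ‖(1 : ℂ) - x * z‖ ≤ Real.exp (-(x * z.re) + x ^ 2) := by
  have h1 : ‖(1 : ℂ) - x * z‖ ^ 2 ≤ 1 + (-(2 * (x * z.re)) + x ^ 2) := by
    rw [← Complex.normSq_eq_norm_sq, Complex.normSq_apply]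
    have h2 : z.re ^ 2 + z.im ^ 2 ≤ 1 := by
      have := Complex.normSq_eq_norm_sq z
      rw [Complex.normSq_apply] at this
      nlinarith [norm_nonneg z]
    simp only [Complex.sub_re, Complex.one_re, Complex.mul_re, Complex.ofReal_re,
      Complex.ofReal_im, Complex.sub_im, Complex.one_im, Complex.mul_im]
    nlinarith [mul_le_mul_of_nonneg_left h2 (sq_nonneg x)]
  have h3 : 1 + (-(2 * (x * z.re)) + x ^ 2) ≤ Real.exp (-(2 * (x * z.re)) + x ^ 2) := by
    have := Real.add_one_le_exp (-(2 * (x * z.re)) + x ^ 2)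
    linarith
  have h4 : Real.exp (-(2 * (x * z.re)) + x ^ 2) ≤ Real.exp (-(x * z.re) + x ^ 2) ^ 2 := by
    rw [← Real.exp_nat_mul]
    apply Real.exp_le_exp.mpr
    push_cast
    nlinarith [sq_nonneg x]
  have h5 := le_trans h1 (le_trans h3 h4)
  exact le_of_sq_le_sq h5 (Real.exp_pos _).le

/-- Product-law bound: replacing `p` by `p * z` with `|z| ≤ 1`. -/
lemma norm_wt_le (B : Finset ℕ) (p : ℕ → ℝ) (hp0 : ∀ n ∈ B, 0 ≤ p n)
    (hp : ∀ n ∈ B, p n ≤ 1 / 2) (f : Finset ℕ → ℝ) (hf : ∀ S ⊆ B, 0 ≤ f S) (z : ℂ)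
    (hz : ‖z‖ ≤ 1) :
    ‖∑ S ∈ B.powerset, (f S : ℂ) * ((∏ n ∈ S, ((p n : ℂ) * z)) * ∏ n ∈ B \ S, (1 - (p n : ℂ) * z))‖
      * ∏ n ∈ B, (1 - p n) ≤ Ex B p f * ∏ n ∈ B, ‖1 - (p n : ℂ) * z‖ := by
  have key : ∀ n ∈ B, ‖(p n : ℂ) * z‖ * (1 - p n) ≤ p n * ‖1 - (p n : ℂ) * z‖ := by
    intro n hn
    have h0 := hp0 n hn
    have h1 := hp n hn
    have h2 : 1 - p n * ‖z‖ ≤ ‖1 - (p n : ℂ) * z‖ := by
      have := norm_sub_norm_le (1 : ℂ) ((p n : ℂ) * z)
      rw [norm_one, norm_mul, Complex.norm_real, Real.norm_of_nonneg h0] at this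
      exact this
    rw [norm_mul, Complex.norm_real, Real.norm_of_nonneg h0, mul_assoc]
    apply mul_le_mul_of_nonneg_left _ h0
    nlinarith [norm_nonneg z]
  have h1 : ∀ S ∈ B.powerset, ‖(f S : ℂ) * ((∏ n ∈ S, ((p n : ℂ) * z)) *
      ∏ n ∈ B \ S, (1 - (p n : ℂ) * z))‖ * ∏ n ∈ B, (1 - p n) ≤
      f S * ((∏ n ∈ S, p n) * ∏ n ∈ B \ S, (1 - p n)) * ∏ n ∈ B, ‖1 - (p n : ℂ) * z‖ := by
    intro S hS
    rw [Finset.mem_powerset] at hS
    rw [norm_mul, norm_mul, Complex.norm_real, Real.norm_of_nonneg (hf S hS), norm_prod, norm_prod]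
    rw [← Finset.prod_sdiff hS (f := fun n => 1 - p n),
      ← Finset.prod_sdiff hS (f := fun n => ‖1 - (p n : ℂ) * z‖)]
    have h2 : (∏ n ∈ S, ‖(p n : ℂ) * z‖) * ∏ n ∈ S, (1 - p n) ≤
        (∏ n ∈ S, p n) * ∏ n ∈ S, ‖1 - (p n : ℂ) * z‖ := by
      rw [← Finset.prod_mul_distrib, ← Finset.prod_mul_distrib]
      apply Finset.prod_le_prod
      · intro n hn
        have := hp n (hS hn)
        apply mul_nonneg (norm_nonneg _); linarith
      · intro n hn; exact key n (hS hn)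
    have h3 : 0 ≤ f S * (∏ n ∈ B \ S, ‖1 - (p n : ℂ) * z‖) * ∏ n ∈ B \ S, (1 - p n) := by
      apply mul_nonneg (mul_nonneg (hf S hS) (Finset.prod_nonneg fun n _ => norm_nonneg _))
      apply Finset.prod_nonneg
      intro n hn
      have := hp n (Finset.sdiff_subset hn)
      linarith
    calc f S * ((∏ n ∈ S, ‖(p n : ℂ) * z‖) * ∏ n ∈ B \ S, ‖1 - (p n : ℂ) * z‖) *
          ((∏ n ∈ B \ S, (1 - p n)) * ∏ n ∈ S, (1 - p n))
        = (f S * (∏ n ∈ B \ S, ‖1 - (p n : ℂ) * z‖) * ∏ n ∈ B \ S, (1 - p n)) *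
          ((∏ n ∈ S, ‖(p n : ℂ) * z‖) * ∏ n ∈ S, (1 - p n)) := by ring
      _ ≤ (f S * (∏ n ∈ B \ S, ‖1 - (p n : ℂ) * z‖) * ∏ n ∈ B \ S, (1 - p n)) *
          ((∏ n ∈ S, p n) * ∏ n ∈ S, ‖1 - (p n : ℂ) * z‖) := mul_le_mul_of_nonneg_left h2 h3
      _ = _ := by ring
  calc _ ≤ (∑ S ∈ B.powerset, ‖(f S : ℂ) * ((∏ n ∈ S, ((p n : ℂ) * z)) *
      ∏ n ∈ B \ S, (1 - (p n : ℂ) * z))‖) * ∏ n ∈ B, (1 - p n) := by
        apply mul_le_mul_of_nonneg_right (norm_sum_le _ _)
        apply Finset.prod_nonneg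
        intro n hn
        have := hp n hn
        linarith
    _ = ∑ S ∈ B.powerset, ‖(f S : ℂ) * ((∏ n ∈ S, ((p n : ℂ) * z)) *
      ∏ n ∈ B \ S, (1 - (p n : ℂ) * z))‖ * ∏ n ∈ B, (1 - p n) := Finset.sum_mul _ _ _
    _ ≤ ∑ S ∈ B.powerset, f S * ((∏ n ∈ S, p n) * ∏ n ∈ B \ S, (1 - p n)) *
        ∏ n ∈ B, ‖1 - (p n : ℂ) * z‖ := Finset.sum_le_sum h1
    _ = _ := by rw [Ex, Finset.sum_mul]

/-- The analytic function whose real part on the unit circle is that of
`w (1 + c w) / (w + c)`. -/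
noncomputable def Hf (c : ℝ) (w : ℂ) : ℂ := c * w + (1 - c ^ 2) - c * (1 - c ^ 2) * (w / (1 + c * w))

lemma one_add_ne (c : ℝ) (hc0 : 0 < c) (hc1 : c < 1) (w : ℂ) (hw : ‖w‖ ≤ 1) :
    (1 : ℂ) + c * w ≠ 0 := by
  intro h
  have h1 : (c : ℂ) * w = -1 := by linear_combination h
  have h2 : ‖(c : ℂ) * w‖ = 1 := by rw [h1]; simp
  rw [norm_mul, Complex.norm_real, Real.norm_of_nonneg hc0.le] at h2
  nlinarith [norm_nonneg w]

lemma norm_add_eq (c : ℝ) (w : ℂ) (hw : ‖w‖ = 1) : ‖(1 : ℂ) + c * w‖ = ‖w + c‖ := by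
  have h1 : (1 : ℂ) + c * w = w * (starRingEnd ℂ) (w + c) := by
    have h2 : w * (starRingEnd ℂ) w = 1 := by
      rw [Complex.mul_conj, Complex.normSq_eq_norm_sq, hw]; simp
    rw [map_add, mul_add, h2, Complex.conj_ofReal]; ring
  rw [h1, norm_mul, hw, one_mul, Complex.norm_conj]

lemma re_Hf (c : ℝ) (hc0 : 0 < c) (hc1 : c < 1) (w : ℂ) (hw : ‖w‖ = 1) :
    (Hf c w).re = (w * (1 + c * w) / (w + c)).re := by
  have h0 : (1 : ℂ) + c * w ≠ 0 := one_add_ne c hc0 hc1 w hw.le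
  have h1 : w + c ≠ 0 := by
    rw [← norm_pos_iff, ← norm_add_eq c w hw, norm_pos_iff]; exact h0
  have h2 : w * (starRingEnd ℂ) w = 1 := by
    rw [Complex.mul_conj, Complex.normSq_eq_norm_sq, hw]; simp
  have h3 : w * (1 + c * w) / (w + c) = c * w + (1 - c ^ 2) - c * (1 - c ^ 2) * (1 / (w + c)) := by
    field_simp; ring
  have h4 : (starRingEnd ℂ) (w / (1 + c * w)) = 1 / (w + c) := by
    rw [map_div₀, map_add, map_mul, Complex.conj_ofReal, map_one]
    have h5 : (1 : ℂ) + c * (starRingEnd ℂ) w = (starRingEnd ℂ) w * (w + c) := by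
      rw [mul_add, mul_comm _ w, h2]; ring
    have h6 : (starRingEnd ℂ) w ≠ 0 := by
      intro h; rw [h, mul_zero] at h2; exact zero_ne_one h2
    rw [h5]
    field_simp
  rw [h3, Hf, Complex.sub_re, Complex.sub_re, ← h4]
  congr 1
  have h7 : (c : ℂ) * (1 - (c : ℂ) ^ 2) = ((c * (1 - c ^ 2) : ℝ) : ℂ) := by push_cast; ring
  rw [h7, Complex.re_ofReal_mul, Complex.re_ofReal_mul, Complex.conj_re]

/-- The monomial expansion of the generating polynomial. -/
lemma gen_poly (B : Finset ℕ) (F : Finset (Finset ℕ)) (hF : ∀ T ∈ F, T ⊆ B)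
    (a : Finset ℕ → ℝ) (q : ℕ → ℂ) :
    ∑ S ∈ B.powerset, ((∑ T ∈ F, a T * (if T ⊆ S then (1 : ℝ) else 0) : ℝ) : ℂ) *
      ((∏ n ∈ S, q n) * ∏ n ∈ B \ S, (1 - q n)) = ∑ T ∈ F, (a T : ℂ) * ∏ n ∈ T, q n := by
  calc _ = ∑ S ∈ B.powerset, ∑ T ∈ F, (a T : ℂ) * ((if T ⊆ S then (1 : ℂ) else 0) *
      ((∏ n ∈ S, q n) * ∏ n ∈ B \ S, (1 - q n))) := by
        apply Finset.sum_congr rfl
        intro S _
        push_cast
        rw [Finset.sum_mul]
        apply Finset.sum_congr rfl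
        intro T _
        by_cases hTS : T ⊆ S
        · simp [hTS]
        · simp [hTS]
    _ = _ := by
        rw [Finset.sum_comm]
        apply Finset.sum_congr rfl
        intro T hT
        rw [← Finset.mul_sum, sum_superset B q (hF T hT)]

/-- **Dual bound.** A multilinear polynomial of degree at most `D` which is nonnegative on all
subsets of `B` has product-law expectation at least `c ^ D * exp (...)` times its value at `∅`. -/
theorem dual_bound (B : Finset ℕ) (p : ℕ → ℝ) (hp0 : ∀ n ∈ B, 0 ≤ p n)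
    (hp : ∀ n ∈ B, p n ≤ 1 / 2) (D : ℕ) (c : ℝ) (hc0 : 0 < c) (hc1 : c ≤ 1)
    (F : Finset (Finset ℕ)) (hF : ∀ T ∈ F, T ⊆ B ∧ T.card ≤ D) (hF0 : ∅ ∈ F)
    (a : Finset ℕ → ℝ)
    (hf : ∀ S ⊆ B, 0 ≤ ∑ T ∈ F, a T * (if T ⊆ S then (1 : ℝ) else 0)) :
    c ^ D * Real.exp (-(c ^ 2 * ∑ n ∈ B, p n + 3 * ∑ n ∈ B, p n ^ 2)) * a ∅ ≤
      Ex B p (fun S => ∑ T ∈ F, a T * (if T ⊆ S then (1 : ℝ) else 0)) := by
  classical
  set f : Finset ℕ → ℝ := fun S => ∑ T ∈ F, a T * (if T ⊆ S then (1 : ℝ) else 0) with hfdef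
  have hf' : ∀ S ⊆ B, 0 ≤ f S := hf
  have hfe : f ∅ = a ∅ := by
    rw [hfdef]
    simp only
    rw [Finset.sum_eq_single ∅]
    · simp
    · intro T _ hT
      rw [if_neg, mul_zero]
      intro h; exact hT (Finset.subset_empty.mp h)
    · intro h; exact absurd hF0 h
  have ha0 : 0 ≤ a ∅ := by rw [← hfe]; exact hf' ∅ (Finset.empty_subset _)
  have hs2 : 0 ≤ ∑ n ∈ B, p n ^ 2 := Finset.sum_nonneg fun n _ => sq_nonneg _
  have hs1 : 0 ≤ ∑ n ∈ B, p n := Finset.sum_nonneg hp0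
  have hprodpos : 0 < ∏ n ∈ B, (1 - p n) := by
    apply Finset.prod_pos
    intro n hn
    have := hp n hn; linarith
  have hExnn : 0 ≤ Ex B p f := by
    apply Finset.sum_nonneg
    intro S hS
    rw [Finset.mem_powerset] at hS
    apply mul_nonneg (hf' S hS)
    apply mul_nonneg
    · exact Finset.prod_nonneg fun n hn => hp0 n (hS hn)
    · apply Finset.prod_nonneg
      intro n hn
      have := hp n (Finset.sdiff_subset hn); linarith
  rcases eq_or_lt_of_le hc1 with hc | hc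
  · -- trivial case `c = 1`
    subst hc
    have h1 : f ∅ * ((∏ n ∈ (∅ : Finset ℕ), p n) * ∏ n ∈ B \ ∅, (1 - p n)) ≤ Ex B p f := by
      apply Finset.single_le_sum (f := fun S => f S * ((∏ n ∈ S, p n) * ∏ n ∈ B \ S, (1 - p n)))
      · intro S hS
        rw [Finset.mem_powerset] at hS
        apply mul_nonneg (hf' S hS)
        apply mul_nonneg
        · exact Finset.prod_nonneg fun n hn => hp0 n (hS hn)
        · apply Finset.prod_nonneg
          intro n hn
          have := hp n (Finset.sdiff_subset hn); linarith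
      · simp
    rw [Finset.prod_empty, one_mul, Finset.sdiff_empty, hfe] at h1
    refine le_trans ?_ h1
    rw [one_pow, one_mul, mul_comm]
    apply mul_le_mul_of_nonneg_left _ ha0
    refine le_trans ?_ (prod_one_sub_ge B p hp0 hp)
    apply Real.exp_le_exp.mpr
    nlinarith
  -- main case
  set s : ℝ := ∑ n ∈ B, p n with hs
  set S0 : ℂ → ℂ := fun w => ∑ T ∈ F, (a T : ℂ) * (∏ n ∈ T, (p n : ℂ)) *
    ((w * (1 + c * w)) ^ T.card * (w + c) ^ (D - T.card)) with hS0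
  set Ψ : ℂ → ℂ := fun w => S0 w / (1 + c * w) ^ D * Complex.exp (s * Hf c w) with hΨ
  have hne : ∀ w : ℂ, ‖w‖ ≤ 1 → (1 : ℂ) + c * w ≠ 0 := one_add_ne c hc0 hc
  have hdiff : DifferentiableOn ℂ Ψ (Metric.closedBall 0 1) := by
    intro w hw
    rw [mem_closedBall_zero_iff] at hw
    apply DifferentiableAt.differentiableWithinAt
    have h0 := hne w hw
    have hS0d : DifferentiableAt ℂ S0 w := by
      rw [hS0]
      fun_prop
    have hHd : DifferentiableAt ℂ (Hf c) w := by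
      unfold Hf
      fun_prop (disch := exact h0)
    rw [hΨ]
    apply DifferentiableAt.mul
    · apply DifferentiableAt.div hS0d (by fun_prop)
      exact pow_ne_zero _ h0
    · exact (hHd.const_mul _).cexp
  -- bound on the circle
  set M : ℝ := Ex B p f * Real.exp (∑ n ∈ B, p n ^ 2) / ∏ n ∈ B, (1 - p n) with hM
  have hcirc : ∀ w ∈ frontier (Metric.ball (0 : ℂ) 1), ‖Ψ w‖ ≤ M := by
    intro w hw
    rw [frontier_ball _ one_ne_zero, mem_sphere_zero_iff_norm] at hw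
    have h0 := hne w hw.le
    have h1 : w + c ≠ 0 := by
      rw [← norm_pos_iff, ← norm_add_eq c w hw, norm_pos_iff]; exact h0
    set z : ℂ := w * (1 + c * w) / (w + c) with hz
    have hznorm : ‖z‖ = 1 := by
      rw [hz, norm_div, norm_mul, hw, one_mul, norm_add_eq c w hw, div_self]
      exact norm_ne_zero_iff.mpr h1
    have hS0z : S0 w = (w + c) ^ D * ∑ S ∈ B.powerset, (f S : ℂ) *
        ((∏ n ∈ S, ((p n : ℂ) * z)) * ∏ n ∈ B \ S, (1 - (p n : ℂ) * z)) := by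
      rw [hfdef, gen_poly B F (fun T hT => (hF T hT).1) a (fun n => (p n : ℂ) * z), hS0,
        Finset.mul_sum]
      apply Finset.sum_congr rfl
      intro T hT
      rw [Finset.prod_mul_distrib, Finset.prod_const]
      have h2 : (w * (1 + c * w)) ^ T.card = z ^ T.card * (w + c) ^ T.card := by
        rw [← mul_pow, hz, div_mul_cancel₀ _ h1]
      have h3 : (w + c) ^ D = (w + c) ^ T.card * (w + c) ^ (D - T.card) := by
        rw [← pow_add, Nat.add_sub_cancel' (hF T hT).2]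
      rw [h2, h3]; ring
    have hnw := norm_wt_le B p hp0 hp f hf' z hznorm.le
    have hprod : ∏ n ∈ B, ‖1 - (p n : ℂ) * z‖ ≤
        Real.exp (-(s * z.re) + ∑ n ∈ B, p n ^ 2) := by
      rw [hs, Finset.sum_mul, ← Finset.sum_neg_distrib, ← Finset.sum_add_distrib, Real.exp_sum]
      exact Finset.prod_le_prod (fun n _ => norm_nonneg _)
        (fun n _ => norm_one_sub_le (p n) z hznorm.le)
    have hexp : ‖Complex.exp (s * Hf c w)‖ = Real.exp (s * z.re) := by
      rw [Complex.norm_exp, Complex.re_ofReal_mul, re_Hf c hc0 hc w hw]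
    have h4 : ‖Ψ w‖ = ‖∑ S ∈ B.powerset, (f S : ℂ) *
        ((∏ n ∈ S, ((p n : ℂ) * z)) * ∏ n ∈ B \ S, (1 - (p n : ℂ) * z))‖ * Real.exp (s * z.re) := by
      rw [hΨ]
      simp only
      rw [norm_mul, hexp, norm_div, hS0z, norm_mul, norm_pow, norm_pow, norm_add_eq c w hw]
      have : ‖w + (c : ℂ)‖ ^ D ≠ 0 := pow_ne_zero _ (norm_ne_zero_iff.mpr h1)
      rw [mul_div_cancel_left₀ _ this]
    rw [h4, hM, le_div_iff₀ hprodpos]
    calc _ = (‖∑ S ∈ B.powerset, (f S : ℂ) *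
        ((∏ n ∈ S, ((p n : ℂ) * z)) * ∏ n ∈ B \ S, (1 - (p n : ℂ) * z))‖ *
          ∏ n ∈ B, (1 - p n)) * Real.exp (s * z.re) := by ring
      _ ≤ (Ex B p f * ∏ n ∈ B, ‖1 - (p n : ℂ) * z‖) * Real.exp (s * z.re) :=
          mul_le_mul_of_nonneg_right hnw (Real.exp_pos _).le
      _ ≤ (Ex B p f * Real.exp (-(s * z.re) + ∑ n ∈ B, p n ^ 2)) * Real.exp (s * z.re) := by
          apply mul_le_mul_of_nonneg_right _ (Real.exp_pos _).le
          exact mul_le_mul_of_nonneg_left hprod hExnn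
      _ = Ex B p f * Real.exp (∑ n ∈ B, p n ^ 2) := by
          rw [mul_assoc, ← Real.exp_add]; ring_nf
  have hmax : ‖Ψ 0‖ ≤ M := by
    apply Complex.norm_le_of_forall_mem_frontier_norm_le Metric.isBounded_ball
      (DifferentiableOn.diffContOnCl_ball (c := (0 : ℂ)) (R := 1) hdiff Set.Subset.rfl) hcirc
    rw [closure_ball _ one_ne_zero]
    simp
  have hS00 : S0 0 = (a ∅ : ℂ) * c ^ D := by
    rw [hS0]
    simp only
    rw [Finset.sum_eq_single ∅]
    · simp
    · intro T _ hT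
      have : T.card ≠ 0 := by rw [Finset.card_ne_zero]; exact Finset.nonempty_iff_ne_empty.mpr hT
      simp [this]
    · intro h; exact absurd hF0 h
  have hΨ0 : ‖Ψ 0‖ = a ∅ * c ^ D * Real.exp (s * (1 - c ^ 2)) := by
    rw [hΨ]
    simp only
    rw [hS00, Hf]
    simp only [mul_zero, sub_zero, zero_add, add_zero, one_pow, div_one]
    rw [norm_mul, norm_mul, norm_pow, Complex.norm_real, Complex.norm_real,
      Real.norm_of_nonneg ha0, Real.norm_of_nonneg hc0.le, Complex.norm_exp]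
    congr 1
    congr 1
    have : (s : ℂ) * (1 - (c : ℂ) ^ 2) = ((s * (1 - c ^ 2) : ℝ) : ℂ) := by push_cast; ring
    rw [this, Complex.ofReal_re]
  rw [hΨ0, hM, le_div_iff₀ hprodpos] at hmax
  have h5 := prod_one_sub_ge B p hp0 hp
  have h6 : a ∅ * c ^ D * Real.exp (s * (1 - c ^ 2)) *
      Real.exp (-(s + 2 * ∑ n ∈ B, p n ^ 2)) ≤ Ex B p f * Real.exp (∑ n ∈ B, p n ^ 2) := by
    refine le_trans ?_ hmax
    apply mul_le_mul_of_nonneg_left h5
    positivity
  have h7 : c ^ D * Real.exp (-(c ^ 2 * s + 3 * ∑ n ∈ B, p n ^ 2)) * a ∅ *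
      Real.exp (∑ n ∈ B, p n ^ 2) ≤ Ex B p f * Real.exp (∑ n ∈ B, p n ^ 2) := by
    refine le_trans (le_of_eq ?_) h6
    have : Real.exp (s * (1 - c ^ 2)) * Real.exp (-(s + 2 * ∑ n ∈ B, p n ^ 2)) =
        Real.exp (-(c ^ 2 * s + 3 * ∑ n ∈ B, p n ^ 2)) * Real.exp (∑ n ∈ B, p n ^ 2) := by
      rw [← Real.exp_add, ← Real.exp_add]; ring_nf
    calc _ = a ∅ * c ^ D * (Real.exp (-(c ^ 2 * s + 3 * ∑ n ∈ B, p n ^ 2)) *
        Real.exp (∑ n ∈ B, p n ^ 2)) := by ring
      _ = _ := by rw [← this]; ring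
  exact le_of_mul_le_mul_right h7 (Real.exp_pos _)

/-- The indicator of the supersets of `T`. -/
noncomputable def eT (T : Finset ℕ) : Finset ℕ → ℝ := fun S => if T ⊆ S then 1 else 0

/-- The cone of functions which are nonnegative on subsets of `B`. -/
noncomputable def posCone (B : Finset ℕ) : PointedCone ℝ (Finset ℕ → ℝ) where
  carrier := {f | ∀ S ⊆ B, 0 ≤ f S}
  add_mem' := by
    intro f g hf hg S hS
    exact add_nonneg (hf S hS) (hg S hS)
  zero_mem' := by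
    intro S _
    exact le_refl _
  smul_mem' := by
    intro c f hf S hS
    exact mul_nonneg c.2 (hf S hS)

lemma mem_posCone (B : Finset ℕ) (f : Finset ℕ → ℝ) :
    f ∈ posCone B ↔ ∀ S ⊆ B, 0 ≤ f S := Iff.rfl

/-- The functional `f ↦ E_p f - v f(∅)`. -/
noncomputable def Lfun (B : Finset ℕ) (p : ℕ → ℝ) (v : ℝ) : (Finset ℕ → ℝ) →ₗ[ℝ] ℝ where
  toFun := fun f => Ex B p f - v * f ∅
  map_add' := by
    intro f g
    simp only [Ex, Pi.add_apply, add_mul, Finset.sum_add_distrib]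
    ring
  map_smul' := by
    intro c f
    simp only [Ex, Pi.smul_apply, smul_eq_mul, RingHom.id_apply, mul_sub, Finset.mul_sum]
    congr 1
    · apply Finset.sum_congr rfl
      intro S _
      ring
    · ring

lemma Ex_eT (B : Finset ℕ) (p : ℕ → ℝ) {T : Finset ℕ} (hT : T ⊆ B) :
    Ex B p (eT T) = ∏ n ∈ T, p n := sum_superset B p hT

theorem exists_block_law (B : Finset ℕ) (p : ℕ → ℝ) (hp0 : ∀ n ∈ B, 0 ≤ p n)
    (hp1 : ∀ n ∈ B, p n ≤ 1) (D : ℕ) (c : ℝ) (hc0 : 0 < c) (hc1 : c ≤ 1) :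
    ∃ m : Finset ℕ → ℝ, (∀ S ⊆ B, 0 ≤ m S) ∧
      (∀ T ⊆ B, T.card ≤ D → ∑ S ∈ B.powerset, (if T ⊆ S then (1 : ℝ) else 0) * m S =
        ∏ n ∈ T, p n) ∧
      ((∀ n ∈ B, p n ≤ 1 / 2) →
        c ^ D * Real.exp (-(c ^ 2 * ∑ n ∈ B, p n + 3 * ∑ n ∈ B, p n ^ 2)) ≤ m ∅) := by
  classical
  by_cases hp : ∀ n ∈ B, p n ≤ 1 / 2
  swap
  · refine ⟨fun S => (∏ n ∈ S, p n) * ∏ n ∈ B \ S, (1 - p n), ?_, ?_, fun h => absurd h hp⟩
    · intro S hS
      apply mul_nonneg
      · exact Finset.prod_nonneg fun n hn => hp0 n (hS hn)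
      · apply Finset.prod_nonneg
        intro n hn
        have := hp1 n (Finset.sdiff_subset hn); linarith
    · intro T hT _
      exact sum_superset B p hT
  set v : ℝ := c ^ D * Real.exp (-(c ^ 2 * ∑ n ∈ B, p n + 3 * ∑ n ∈ B, p n ^ 2)) with hv
  have hv0 : 0 ≤ v := by positivity
  set F : Finset (Finset ℕ) := B.powerset.filter (fun T => T.card ≤ D) with hF
  have hFmem : ∀ T, T ∈ F ↔ T ⊆ B ∧ T.card ≤ D := by
    intro T; rw [hF, Finset.mem_filter, Finset.mem_powerset]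
  have hF0 : ∅ ∈ F := by rw [hFmem]; simp
  set dom : Submodule ℝ (Finset ℕ → ℝ) :=
    Submodule.span ℝ (Set.range (fun T : {T // T ∈ F} => eT T.1)) with hdom
  have heTdom : ∀ T ∈ F, eT T ∈ dom := fun T hT => Submodule.subset_span ⟨⟨T, hT⟩, rfl⟩
  obtain ⟨g, hg1, hg2⟩ := riesz_extension (posCone B)
    (⟨dom, (Lfun B p v).comp dom.subtype⟩ : (Finset ℕ → ℝ) →ₗ.[ℝ] ℝ) (by
      rintro ⟨x, hx⟩ hxs
      rw [mem_posCone] at hxs
      simp only at hxs hx ⊢
      obtain ⟨a, ha⟩ := (Submodule.mem_span_range_iff_exists_fun ℝ).mp hx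
      set a' : Finset ℕ → ℝ := fun T => if h : T ∈ F then a ⟨T, h⟩ else 0 with ha'
      have hxe : x = fun S => ∑ T ∈ F, a' T * (if T ⊆ S then (1 : ℝ) else 0) := by
        rw [← ha]
        funext S
        rw [Finset.sum_apply, ← Finset.sum_attach F]
        apply Finset.sum_congr rfl
        intro T _
        rw [ha']
        simp [eT, T.2]
      have := dual_bound B p hp0 hp D c hc0 hc1 F (fun T hT => (hFmem T).mp hT) hF0 a' (by
        intro S hS
        have := hxs S hS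
        rw [hxe] at this
        exact this)
      have hx0 : x ∅ = a' ∅ := by
        rw [hxe]
        simp only
        rw [Finset.sum_eq_single ∅]
        · simp
        · intro T _ hT
          rw [if_neg, mul_zero]
          intro h; exact hT (Finset.subset_empty.mp h)
        · intro h; exact absurd hF0 h
      change 0 ≤ Ex B p x - v * x ∅
      rw [hx0, hxe]
      linarith) (by
      intro y
      obtain ⟨M, hM⟩ : ∃ M : ℝ, ∀ S ∈ B.powerset, |y S| ≤ M := by
        refine ⟨∑ S ∈ B.powerset, |y S|, fun S hS => ?_⟩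
        exact Finset.single_le_sum (f := fun S => |y S|) (fun _ _ => abs_nonneg _) hS
      refine ⟨⟨M • eT ∅, dom.smul_mem M (heTdom ∅ hF0)⟩, ?_⟩
      rw [mem_posCone]
      intro S hS
      have h1 := hM S (Finset.mem_powerset.mpr hS)
      have h2 := neg_abs_le (y S)
      change 0 ≤ M * eT ∅ S + y S
      rw [eT, if_pos (Finset.empty_subset _)]
      linarith)
  -- the law
  have hdelta : ∀ S ⊆ B, 0 ≤ g (Pi.single S 1) := by
    intro S _
    apply hg2
    rw [mem_posCone]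
    intro S' _
    by_cases h : S' = S
    · subst h; simp
    · simp [h]
  have hgT : ∀ T ∈ F, ∑ S ∈ B.powerset, (if T ⊆ S then (1 : ℝ) else 0) * g (Pi.single S 1) =
      (∏ n ∈ T, p n) - v * (if T = ∅ then 1 else 0) := by
    intro T hT
    have h1 : g (eT T) = (∏ n ∈ T, p n) - v * (if T = ∅ then 1 else 0) := by
      have h2 := hg1 ⟨eT T, heTdom T hT⟩
      simp only at h2
      rw [h2]
      change Ex B p (eT T) - v * eT T ∅ = _
      rw [Ex_eT B p ((hFmem T).mp hT).1]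
      congr 2
      rw [eT]
      by_cases h : T = ∅
      · simp [h]
      · rw [if_neg h, if_neg]; intro h'; exact h (Finset.subset_empty.mp h')
    rw [← h1]
    have h3 : ∑ S ∈ B.powerset, (if T ⊆ S then (1 : ℝ) else 0) * g (Pi.single S 1) =
        g (∑ S ∈ B.powerset, (if T ⊆ S then (1 : ℝ) else 0) • Pi.single S (1 : ℝ)) := by
      rw [map_sum]
      apply Finset.sum_congr rfl
      intro S _
      rw [map_smul, smul_eq_mul]
    rw [h3]
    have h4 : ∀ S ⊆ B, (∑ S ∈ B.powerset, (if T ⊆ S then (1 : ℝ) else 0) •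
        (Pi.single S (1 : ℝ) : Finset ℕ → ℝ)) S = eT T S := by
      intro S hS
      rw [Finset.sum_apply, Finset.sum_eq_single S]
      · simp [eT]
      · intro S' _ hne
        simp [Ne.symm hne]
      · intro h; exact absurd (Finset.mem_powerset.mpr hS) h
    apply le_antisymm
    · have : 0 ≤ g (eT T - (∑ S ∈ B.powerset, (if T ⊆ S then (1 : ℝ) else 0) •
        (Pi.single S (1 : ℝ) : Finset ℕ → ℝ))) := by
        apply hg2
        rw [mem_posCone]
        intro S hS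
        rw [Pi.sub_apply, h4 S hS, sub_self]
      rw [map_sub] at this
      linarith
    · have : 0 ≤ g ((∑ S ∈ B.powerset, (if T ⊆ S then (1 : ℝ) else 0) •
        (Pi.single S (1 : ℝ) : Finset ℕ → ℝ)) - eT T) := by
        apply hg2
        rw [mem_posCone]
        intro S hS
        rw [Pi.sub_apply, h4 S hS, sub_self]
      rw [map_sub] at this
      linarith
  refine ⟨fun S => g (Pi.single S 1) + v * (if S = ∅ then 1 else 0), ?_, ?_, ?_⟩
  · intro S hS
    apply add_nonneg (hdelta S hS)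
    apply mul_nonneg hv0
    split_ifs <;> norm_num
  · intro T hT hTD
    have h1 := hgT T ((hFmem T).mpr ⟨hT, hTD⟩)
    simp only [mul_add, Finset.sum_add_distrib]
    rw [h1]
    have h2 : ∑ S ∈ B.powerset, (if T ⊆ S then (1 : ℝ) else 0) * (v * (if S = ∅ then 1 else 0)) =
        v * (if T = ∅ then 1 else 0) := by
      rw [Finset.sum_eq_single ∅]
      · by_cases h : T = ∅
        · simp [h]
        · rw [if_neg h, if_neg]
          · ring
          · intro h'; exact h (Finset.subset_empty.mp h')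
      · intro S _ hS
        simp [hS]
      · intro h; exact absurd (Finset.mem_powerset.mpr (Finset.empty_subset _)) h
    rw [h2]; ring
  · intro _
    have := hdelta ∅ (Finset.empty_subset _)
    simp only [if_true, mul_one]
    linarith

end Pool.Agent.H1.LI
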