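import Mathlib

/-!
# Limited independence in Cramér's random model: definitions (helper1, MP_028722_nt)
-/

namespace Pool.Agent.H1.LI

open MeasureTheory Filter

/-- `CramerModel P A`: the events `A n` (to be read as: `n` is selected), `n ≥ 3`, of the
probability space have probability `1 / log n`, as in Cramér's random model of the primes.
Nothing is assumed about their joint law. -/
structure CramerModel {Ω : Type*} [MeasurableSpace Ω] (P : Measure Ω) (A : ℕ → Set Ω) : Prop where
  meas : ∀ n, MeasurableSet (A n)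
  prob : ∀ n, 3 ≤ n → P (A n) = ENNReal.ofReal (1 / Real.log n)

/-- `k`-wise independence for a function `k`: every finite set `T` of integers `n ≥ 3` with
`|T| ≤ k n` for all `n ∈ T` indexes a family of mutually independent events. -/
def KWise {Ω : Type*} [MeasurableSpace Ω] (k : ℕ → ℕ) (P : Measure Ω) (A : ℕ → Set Ω) : Prop :=
  ∀ T : Finset ℕ, (∀ n ∈ T, 3 ≤ n ∧ T.card ≤ k n) →
    ProbabilityTheory.iIndepSet (fun n : T => A n) P

/-- The random set of selected integers. -/
def rset {Ω : Type*} (A : ℕ → Set Ω) (ω : Ω) : Set ℕ := {n | 3 ≤ n ∧ ω ∈ A n}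

/-- The normalised gap `(s_{j+1} - s_j) / (log s_j)^2` between consecutive elements of `S`. -/
noncomputable def gapRatio (S : Set ℕ) (j : ℕ) : ℝ :=
  ((Nat.nth (· ∈ S) (j + 1) : ℝ) - (Nat.nth (· ∈ S) j : ℝ)) / (Real.log (Nat.nth (· ∈ S) j)) ^ 2

/-- `limsup (s_{j+1} - s_j) / (log s_j)^2`. -/
noncomputable def limsupRatio (S : Set ℕ) : EReal :=
  limsup (fun j : ℕ => ((gapRatio S j : ℝ) : EReal)) atTop

/-- `liminf k(n) / log n`. -/
noncomputable def rate (k : ℕ → ℕ) : EReal :=
  liminf (fun n : ℕ => (((k n : ℝ) / Real.log n : ℝ) : EReal)) atTop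

/-- The optimal constant: `∞` for `κ = 0`, `(κ/2) exp (2/κ - 1)` for `0 < κ < 2`, and `1` (Cramér's
constant) for `κ ≥ 2`. -/
noncomputable def cramerConst (κ : EReal) : EReal :=
  if κ ≤ 0 then ⊤
  else if κ < 2 then ((κ.toReal / 2 * Real.exp (2 / κ.toReal - 1) : ℝ) : EReal)
  else 1

end Pool.Agent.H1.LI
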