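import Pool.Agent.H1.LIBlock
import Pool.Agent.H1.LIDefs

/-!
# Gluing block laws (helper1, MP_028722_nt)
-/

namespace Pool.Agent.H1.LI

open MeasureTheory Filter Topology ProbabilityTheory

local instance finsetMS : MeasurableSpace (Finset ℕ) := ⊤

lemma measTop (G : Set (Finset ℕ)) : MeasurableSet G := MeasurableSpace.measurableSet_top

lemma measEval (i : ℕ) (G : Set (Finset ℕ)) : MeasurableSet {ω : ℕ → Finset ℕ | ω i ∈ G} :=
  (measurable_pi_apply (X := fun _ : ℕ => Finset ℕ) i) (measTop G)

lemma log_gt_one' (n : ℕ) (hn : 3 ≤ n) : 1 < Real.log n := by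
  have h1 : Real.exp 1 < 3 := lt_trans Real.exp_one_lt_d9 (by norm_num)
  rw [Real.lt_log_iff_exp_lt (by positivity)]
  calc Real.exp 1 < 3 := h1
    _ ≤ n := by exact_mod_cast hn

/-- The measure on `Finset ℕ` with weights `m S`, `S ⊆ B`. -/
noncomputable def blockMeasure (B : Finset ℕ) (m : Finset ℕ → ℝ) : Measure (Finset ℕ) :=
  ∑ S ∈ B.powerset, ENNReal.ofReal (m S) • Measure.dirac S

lemma blockMeasure_apply (B : Finset ℕ) (m : Finset ℕ → ℝ) (hm : ∀ S ⊆ B, 0 ≤ m S)
    (G : Set (Finset ℕ)) [DecidablePred (· ∈ G)] :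
    blockMeasure B m G = ENNReal.ofReal (∑ S ∈ B.powerset, (if S ∈ G then (1 : ℝ) else 0) * m S) := by
  classical
  rw [blockMeasure, Measure.finsetSum_apply, ENNReal.ofReal_sum_of_nonneg]
  · apply Finset.sum_congr rfl
    intro S _
    rw [Measure.smul_apply, smul_eq_mul, Measure.dirac_apply' _ (measTop G)]
    by_cases h : S ∈ G
    · simp [h]
    · simp [h]
  · intro S hS
    rw [Finset.mem_powerset] at hS
    apply mul_nonneg _ (hm S hS)
    split_ifs <;> norm_num

/-- The lower bound for the probability that a block is empty. -/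
noncomputable def vlow (B : Finset ℕ) (D : ℕ) (c : ℝ) : ℝ :=
  c ^ D * Real.exp (-(c ^ 2 * ∑ n ∈ B, (1 / Real.log n) + 3 * ∑ n ∈ B, (1 / Real.log n) ^ 2))

theorem glue (k : ℕ → ℕ) (B : ℕ → Finset ℕ) (β : ℕ → ℕ)
    (hβ : ∀ n, 3 ≤ n → ∀ i, n ∈ B i ↔ i = β n) (hB3 : ∀ i, ∀ n ∈ B i, 3 ≤ n)
    (c : ℕ → ℝ) (hc0 : ∀ i, 0 < c i) (hc1 : ∀ i, c i ≤ 1) :
    ∃ (Ω : Type) (_ : MeasurableSpace Ω) (P : Measure Ω) (_ : IsProbabilityMeasure P)
      (A : ℕ → Set Ω), CramerModel P A ∧ KWise k P A ∧
      (∀ I : Set ℕ, (∀ i ∈ I, ∀ n ∈ B i, 8 ≤ n) →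
        (∑' i, I.indicator (fun i => ENNReal.ofReal (vlow (B i) ((B i).sup k + 1) (c i))) i) = ⊤ →
        ∀ᵐ ω ∂P, ∃ᶠ i in atTop, i ∈ I ∧ ∀ n ∈ B i, ω ∉ A n) ∧
      (∀ (I : Set ℕ) (f : ℕ → ℕ), (∀ i ∈ I, f i ∈ B i) →
        (∑' i, I.indicator (fun i => ENNReal.ofReal (1 / Real.log (f i))) i) = ⊤ →
        ∀ᵐ ω ∂P, ∃ᶠ i in atTop, i ∈ I ∧ ω ∈ A (f i)) := by
  classical
  set p : ℕ → ℝ := fun n => 1 / Real.log n with hp
  have hp0 : ∀ n, 3 ≤ n → 0 ≤ p n := by
    intro n hn
    have := log_gt_one' n hn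
    positivity
  have hp1 : ∀ n, 3 ≤ n → p n ≤ 1 := by
    intro n hn
    have := log_gt_one' n hn
    rw [hp]
    simp only
    rw [div_le_one (by linarith)]
    exact this.le
  have hex := fun i => exists_block_law (B i) p (fun n hn => hp0 n (hB3 i n hn))
    (fun n hn => hp1 n (hB3 i n hn)) ((B i).sup k + 1) (c i) (hc0 i) (hc1 i)
  choose m hm0 hmT hmv using hex
  set μ : ℕ → Measure (Finset ℕ) := fun i => blockMeasure (B i) (m i) with hμ
  -- marginals
  have hμT : ∀ i (T : Finset ℕ), T ⊆ B i → T.card ≤ (B i).sup k + 1 →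
      μ i {S | T ⊆ S} = ENNReal.ofReal (∏ n ∈ T, p n) := by
    intro i T hT hTc
    rw [hμ]
    simp only
    rw [blockMeasure_apply (B i) (m i) (hm0 i), ← hmT i T hT hTc]
    congr 1
  have hprob : ∀ i, IsProbabilityMeasure (μ i) := by
    intro i
    constructor
    have := hμT i ∅ (Finset.empty_subset _) (by simp)
    have h2 : {S : Finset ℕ | ∅ ⊆ S} = Set.univ := by
      ext S; simp
    rw [h2] at this
    rw [this]; simp
  set P : Measure (ℕ → Finset ℕ) := Measure.infinitePi μ with hP
  set A : ℕ → Set (ℕ → Finset ℕ) := fun n => {ω | n ∈ ω (β n)} with hA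
  have hAmeas : ∀ n, MeasurableSet (A n) := by
    intro n
    exact measEval (β n) {S | n ∈ S}
  -- product formula
  have hprod : ∀ T : Finset ℕ, (∀ n ∈ T, 3 ≤ n) →
      (∀ i, (T.filter (fun n => β n = i)).card ≤ (B i).sup k + 1) →
      P (⋂ n ∈ T, A n) = ENNReal.ofReal (∏ n ∈ T, p n) := by
    intro T hT3 hTc
    have h1 : (⋂ n ∈ T, A n) = Set.pi (T.image β) (fun i => {S | T.filter (fun n => β n = i) ⊆ S}) := by
      ext ω
      simp only [Set.mem_iInter, hA, Set.mem_pi, Finset.coe_image, Set.mem_image, Finset.mem_coe,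
        Set.mem_ofPred_eq]
      constructor
      · rintro h i ⟨n, _, rfl⟩ n' hn'
        rw [Finset.mem_filter] at hn'
        have := h n' hn'.1
        rw [hn'.2] at this
        exact this
      · intro h n hn
        exact h (β n) ⟨n, hn, rfl⟩ (Finset.mem_filter.mpr ⟨hn, rfl⟩)
    rw [h1, hP, Measure.infinitePi_pi _ (fun i _ => measTop _)]
    have h2 : ∀ i ∈ T.image β, μ i {S | T.filter (fun n => β n = i) ⊆ S} =
        ENNReal.ofReal (∏ n ∈ T.filter (fun n => β n = i), p n) := by
      intro i _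
      apply hμT i _ _ (hTc i)
      intro n hn
      rw [Finset.mem_filter] at hn
      exact (hβ n (hT3 n hn.1) i).mpr hn.2.symm
    rw [Finset.prod_congr rfl h2, ← ENNReal.ofReal_prod_of_nonneg]
    · congr 1
      exact (Finset.prod_fiberwise_of_maps_to (fun n hn => Finset.mem_image_of_mem β hn) _)
    · intro i _
      apply Finset.prod_nonneg
      intro n hn
      rw [Finset.mem_filter] at hn
      exact hp0 n (hT3 n hn.1)
  have hAprob : ∀ n, 3 ≤ n → P (A n) = ENNReal.ofReal (p n) := by
    intro n hn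
    have := hprod {n} (by simpa using hn) (by
      intro i
      calc _ ≤ ({n} : Finset ℕ).card := Finset.card_filter_le _ _
        _ ≤ _ := by simp)
    simpa using this
  have hind : ∀ G : ℕ → Set (Finset ℕ), iIndepSet (fun i => {ω : ℕ → Finset ℕ | ω i ∈ G i}) P := by
    intro G
    have hms : ∀ i, MeasurableSet {ω : ℕ → Finset ℕ | ω i ∈ G i} := by
      intro i
      exact measEval i (G i)
    rw [iIndepSet_iff_meas_biInter hms]
    intro s
    have h1 : (⋂ i ∈ s, {ω : ℕ → Finset ℕ | ω i ∈ G i}) = Set.pi s G := by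
      ext ω; simp [Set.mem_pi]
    rw [h1, hP, Measure.infinitePi_pi _ (fun i _ => measTop _)]
    apply Finset.prod_congr rfl
    intro i _
    have h2 : {ω : ℕ → Finset ℕ | ω i ∈ G i} = Set.pi (({i} : Finset ℕ) : Set ℕ) G := by
      ext ω; simp
    rw [h2, Measure.infinitePi_pi _ (fun i _ => measTop _)]
    simp
  have hBC : ∀ G : ℕ → Set (Finset ℕ), (∑' i, μ i (G i)) = ⊤ →
      ∀ᵐ ω ∂P, ∃ᶠ i in atTop, ω i ∈ G i := by
    intro G hG
    have hms : ∀ i, MeasurableSet {ω : ℕ → Finset ℕ | ω i ∈ G i} := by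
      intro i
      exact measEval i (G i)
    have h1 : (∑' i, P {ω : ℕ → Finset ℕ | ω i ∈ G i}) = ⊤ := by
      rw [← hG]
      apply tsum_congr
      intro i
      have h2 : {ω : ℕ → Finset ℕ | ω i ∈ G i} = Set.pi (({i} : Finset ℕ) : Set ℕ) G := by
        ext ω; simp
      rw [h2, hP, Measure.infinitePi_pi _ (fun i _ => measTop _)]
      simp
    have h2 := measure_limsup_eq_one hms (hind G) h1
    have h3 : MeasurableSet (limsup (fun i => {ω : ℕ → Finset ℕ | ω i ∈ G i}) atTop) :=
      MeasurableSet.measurableSet_limsup hms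
    have h4 : ∀ᵐ ω ∂P, ω ∈ limsup (fun i => {ω : ℕ → Finset ℕ | ω i ∈ G i}) atTop := by
      rw [← prob_compl_eq_zero_iff h3] at h2
      exact h2
    filter_upwards [h4] with ω hω
    rw [mem_limsup_iff_frequently_mem] at hω
    exact hω
  refine ⟨ℕ → Finset ℕ, inferInstance, P, inferInstance, A, ⟨hAmeas, hAprob⟩, ?_, ?_, ?_⟩
  · -- `k`-wise independence
    intro T hT
    rw [iIndepSet_iff_meas_biInter (fun n : T => hAmeas (n : ℕ))]
    intro s
    have h1 : (⋂ i ∈ s, A (i : ℕ)) = ⋂ n ∈ s.map (Function.Embedding.subtype _), A n := by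
      ext ω
      simp only [Set.mem_iInter, Finset.mem_map, Function.Embedding.subtype_apply]
      constructor
      · rintro h n ⟨a, ha, rfl⟩
        exact h a ha
      · intro h a ha
        exact h a ⟨a, ha, rfl⟩
    have hsub : s.map (Function.Embedding.subtype _) ⊆ T := by
      intro n hn
      rw [Finset.mem_map] at hn
      obtain ⟨a, _, rfl⟩ := hn
      exact a.2
    rw [h1, hprod]
    · rw [ENNReal.ofReal_prod_of_nonneg, Finset.prod_map]
      · apply Finset.prod_congr rfl
        intro n _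
        rw [hAprob n.1 (hT n.1 n.2).1]
        rfl
      · intro n hn
        exact hp0 n (hT n (hsub hn)).1
    · intro n hn
      exact (hT n (hsub hn)).1
    · intro i
      by_cases hne : ((s.map (Function.Embedding.subtype _)).filter (fun n => β n = i)).Nonempty
      · obtain ⟨n, hn⟩ := hne
        rw [Finset.mem_filter] at hn
        have hn3 := (hT n (hsub hn.1)).1
        have hnB : n ∈ B i := (hβ n hn3 i).mpr hn.2.symm
        calc _ ≤ (s.map (Function.Embedding.subtype _)).card := Finset.card_filter_le _ _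
          _ ≤ T.card := Finset.card_le_card hsub
          _ ≤ k n := (hT n (hsub hn.1)).2
          _ ≤ (B i).sup k := Finset.le_sup hnB
          _ ≤ _ := Nat.le_succ _
      · rw [Finset.not_nonempty_iff_eq_empty] at hne
        rw [hne]; simp
  · -- empty blocks
    intro I hI8 hsum
    have h1 : ∀ᵐ ω ∂P, ∃ᶠ i in atTop, ω i ∈ (if i ∈ I then {S | Disjoint S (B i)} else ∅ : Set (Finset ℕ)) := by
      apply hBC
      rw [eq_top_iff, ← hsum]
      apply ENNReal.tsum_le_tsum
      intro i
      by_cases hi : i ∈ I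
      · rw [Set.indicator_of_mem hi, if_pos hi]
        have h2 : μ i {S | Disjoint S (B i)} = ENNReal.ofReal (∑ S ∈ (B i).powerset,
            (if S ∈ {S | Disjoint S (B i)} then (1 : ℝ) else 0) * m i S) :=
          blockMeasure_apply (B i) (m i) (hm0 i) _
        rw [h2]
        apply ENNReal.ofReal_le_ofReal
        have h3 : m i ∅ ≤ ∑ S ∈ (B i).powerset,
            (if S ∈ {S | Disjoint S (B i)} then (1 : ℝ) else 0) * m i S := by
          have h4 := Finset.single_le_sum (s := (B i).powerset)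
            (f := fun S => (if S ∈ {S | Disjoint S (B i)} then (1 : ℝ) else 0) * m i S) (by
              intro S hS
              rw [Finset.mem_powerset] at hS
              apply mul_nonneg _ (hm0 i S hS)
              split_ifs <;> norm_num) (Finset.mem_powerset.mpr (Finset.empty_subset (B i)))
          simpa using h4
        refine le_trans ?_ h3
        apply hmv i
        intro n hn
        have h8 := hI8 i hi n hn
        rw [hp]
        simp only
        have hlog : 2 ≤ Real.log n := by
          rw [Real.le_log_iff_exp_le (by exact_mod_cast (by omega : 0 < n))]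
          have h9 : Real.exp 2 = Real.exp 1 * Real.exp 1 := by rw [← Real.exp_add]; norm_num
          have h10 := Real.exp_one_lt_d9
          have h11 := Real.exp_pos 1
          have h12 : (8 : ℝ) ≤ n := by exact_mod_cast h8
          rw [h9]
          nlinarith
        apply one_div_le_one_div_of_le (by norm_num) hlog
      · rw [Set.indicator_of_notMem hi]
        exact zero_le
    filter_upwards [h1] with ω hω
    refine hω.mono (fun i hi => ?_)
    by_cases hiI : i ∈ I
    · rw [if_pos hiI] at hi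
      refine ⟨hiI, fun n hn hnA => ?_⟩
      have hn3 := hB3 i n hn
      have hbi : i = β n := (hβ n hn3 i).mp hn
      rw [hA] at hnA
      have h5 : n ∈ ω i := by rw [hbi]; exact hnA
      exact (Finset.disjoint_left.mp hi) h5 hn
    · rw [if_neg hiI] at hi
      exact absurd hi (Set.notMem_empty _)
  · intro I f hf hsum
    have h1 : ∀ᵐ ω ∂P, ∃ᶠ i in atTop, ω i ∈ (if i ∈ I then {S | f i ∈ S} else ∅ : Set (Finset ℕ)) := by
      apply hBC
      rw [eq_top_iff, ← hsum]
      apply ENNReal.tsum_le_tsum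
      intro i
      by_cases hi : i ∈ I
      · rw [Set.indicator_of_mem hi, if_pos hi]
        have h2 := hμT i {f i} (by simpa using hf i hi) (by simp)
        have h3 : {S : Finset ℕ | {f i} ⊆ S} = {S | f i ∈ S} := by
          ext S; simp
        rw [h3] at h2
        rw [h2]
        simp [hp]
      · rw [Set.indicator_of_notMem hi]
        exact zero_le
    filter_upwards [h1] with ω hω
    refine hω.mono (fun i hi => ?_)
    by_cases hiI : i ∈ I
    · rw [if_pos hiI] at hi
      refine ⟨hiI, ?_⟩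
      have hn3 := hB3 i (f i) (hf i hiI)
      have hbi : i = β (f i) := (hβ (f i) hn3 i).mp (hf i hiI)
      rw [hA]
      change f i ∈ ω (β (f i))
      rw [← hbi]
      exact hi
    · rw [if_neg hiI] at hi
      exact absurd hi (Set.notMem_empty _)

end Pool.Agent.H1.LI
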