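import Pool.Agent.H1.LIUpper
import Pool.Agent.H1.LIDefs
import Pool.Agent.H1.LIAsym

/-!
# Limited independence: the upper bound (helper1, MP_028722_nt)
-/

namespace Pool.Agent.H1.LI

open MeasureTheory Filter Topology

/-- A deterministic lemma: if every interval `(x, x + C log² x]` meets `S`, then `S` is infinite
and the limsup of the normalised gaps is at most `C`. -/
lemma limsupRatio_le (S : Set ℕ) (C : ℝ)
    (h : ∀ᶠ x : ℕ in atTop, ∃ y ∈ S, x < y ∧ (y : ℝ) ≤ x + C * (Real.log x) ^ 2) :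
    S.Infinite ∧ limsupRatio S ≤ (C : EReal) := by
  classical
  have hinf : S.Infinite := by
    rw [Set.infinite_iff_exists_gt]
    intro a
    obtain ⟨N, hN⟩ := eventually_atTop.mp h
    obtain ⟨y, hy, hxy, _⟩ := hN (max a N) (le_max_right _ _)
    exact ⟨y, hy, lt_of_le_of_lt (le_max_left _ _) hxy⟩
  refine ⟨hinf, ?_⟩
  have hinf' : (setOf (fun n => n ∈ S)).Infinite := hinf
  unfold limsupRatio
  apply limsup_le_of_le
  · exact isCobounded_le_of_bot
  have hnth : Tendsto (Nat.nth (· ∈ S)) atTop atTop := (Nat.nth_strictMono hinf').tendsto_atTop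
  filter_upwards [hnth.eventually h, hnth.eventually (eventually_ge_atTop 3)] with j hj hj3
  obtain ⟨y, hy, hxy, hyC⟩ := hj
  have h1 : Nat.nth (· ∈ S) (j + 1) ≤ y := by
    have h2 : Nat.nth (· ∈ S) (Nat.count (· ∈ S) y) = y := Nat.nth_count hy
    have h3 : j + 1 ≤ Nat.count (· ∈ S) y := by
      by_contra hcon
      push Not at hcon
      have : Nat.nth (· ∈ S) (Nat.count (· ∈ S) y) ≤ Nat.nth (· ∈ S) j :=
        Nat.nth_monotone hinf' (by omega)
      omega
    calc _ ≤ Nat.nth (· ∈ S) (Nat.count (· ∈ S) y) := Nat.nth_monotone hinf' h3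
      _ = y := h2
  have hlog : 0 < Real.log (Nat.nth (· ∈ S) j) := by
    apply Real.log_pos
    exact_mod_cast (by omega : 1 < Nat.nth (· ∈ S) j)
  rw [EReal.coe_le_coe_iff]
  unfold gapRatio
  rw [div_le_iff₀ (by positivity)]
  have : (Nat.nth (· ∈ S) (j + 1) : ℝ) ≤ y := by exact_mod_cast h1
  linarith

lemma log_gt_one (n : ℕ) (hn : 3 ≤ n) : 1 < Real.log n := by
  have h1 : Real.exp 1 < 3 := lt_trans Real.exp_one_lt_d9 (by norm_num)
  rw [Real.lt_log_iff_exp_lt (by positivity)]
  calc Real.exp 1 < 3 := h1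
    _ ≤ n := by exact_mod_cast hn

variable {Ω : Type*} [MeasurableSpace Ω]

/-- The product formula. -/
lemma real_biInter (k : ℕ → ℕ) (P : Measure Ω) [IsProbabilityMeasure P] (A : ℕ → Set Ω)
    (hM : CramerModel P A) (hI : KWise k P A) (T : Finset ℕ)
    (hT : ∀ n ∈ T, 3 ≤ n ∧ T.card ≤ k n) :
    P.real (⋂ n ∈ T, A n) = ∏ n ∈ T, (1 / Real.log n) := by
  have h1 := (hI T hT).meas_biInter Finset.univ
  have h2 : (⋂ i ∈ (Finset.univ : Finset T), A i) = ⋂ n ∈ T, A n := by
    ext ω
    simp
  rw [h2] at h1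
  rw [Measure.real, h1]
  rw [ENNReal.toReal_prod]
  rw [← Finset.prod_coe_sort T (fun n => 1 / Real.log (n : ℝ))]
  apply Finset.prod_congr rfl
  intro n _
  have h3 := (hT n.1 n.2).1
  rw [hM.prob n.1 h3, ENNReal.toReal_ofReal]
  have := log_gt_one n.1 h3
  positivity

theorem upper_of_exponent (k : ℕ → ℕ) (hk : Monotone k) (P : Measure Ω) [IsProbabilityMeasure P]
    (A : ℕ → Set Ω) (hM : CramerModel P A) (hI : KWise k P A) (a C : ℝ) (ha : 0 < a) (hC : 0 < C)
    (haC : 1 < a * (1 + Real.log (C / a)))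
    (hka : ∀ᶠ n : ℕ in atTop, 2 * a * Real.log n ≤ k n) :
    ∀ᵐ ω ∂P, (rset A ω).Infinite ∧ limsupRatio (rset A ω) ≤ (C : EReal) := by
  classical
  set m : ℕ → ℕ := fun x => ⌊a * Real.log x⌋₊ with hm
  set h : ℕ → ℕ := fun x => ⌊C * (Real.log x) ^ 2⌋₊ with hh
  set G : ℕ → ℝ := fun x => (m x : ℝ) * Real.log ((h x : ℝ) + 1 - m x)
        - (m x + 1) * Real.log (m x) + m x - 1
        - m x * Real.log (Real.log ((x : ℝ) + h x)) with hG
  have hlog : Tendsto (fun x : ℕ => Real.log (x : ℝ)) atTop atTop :=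
    Real.tendsto_log_atTop.comp tendsto_natCast_atTop_atTop
  obtain ⟨δ, hδ0, hδ⟩ : ∃ δ : ℝ, 0 < δ ∧ 1 + δ < a * (1 + Real.log (C / a)) := by
    refine ⟨(a * (1 + Real.log (C / a)) - 1) / 2, by linarith, by linarith⟩
  have hGlim : Tendsto (fun x => G x / Real.log x) atTop (𝓝 (a * (1 + Real.log (C / a)))) :=
    tendsto_exponent a C ha hC
  have hGev : ∀ᶠ x in atTop, 1 + δ < G x / Real.log x := hGlim.eventually (lt_mem_nhds hδ)
  set E : ℕ → Set Ω := fun x => ⋂ n ∈ Finset.Ioc x (x + h x), (A n)ᶜ with hE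
  have hm1 : ∀ᶠ x : ℕ in atTop, 1 ≤ m x := by
    have : ∀ᶠ x : ℕ in atTop, 1 / a < Real.log x := hlog.eventually_gt_atTop _
    filter_upwards [this] with x hx
    rw [hm]
    simp only
    rw [Nat.one_le_floor_iff]
    rw [div_lt_iff₀ ha] at hx
    linarith
  have hmh : ∀ᶠ x : ℕ in atTop, m x ≤ h x := by
    have : ∀ᶠ x : ℕ in atTop, a / C < Real.log x := hlog.eventually_gt_atTop _
    filter_upwards [this, hlog.eventually_gt_atTop 0] with x hx hx0
    rw [div_lt_iff₀ hC] at hx
    apply Nat.floor_mono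
    nlinarith
  have hbound : ∀ᶠ x : ℕ in atTop, P.real (E x) ≤ (x : ℝ) ^ (-(1 + δ)) := by
    filter_upwards [hGev, hm1, hmh, hka, eventually_ge_atTop 3, hlog.eventually_gt_atTop 0]
      with x hx hx1 hx2 hx3 hx4 hx5
    have hx6 : (1 : ℝ) < Real.log ((x : ℝ) + h x) := by
      have := log_gt_one (x + h x) (by omega)
      push_cast at this
      exact this
    have hkey := prob_empty_le' P A hM.meas (fun n => 1 / Real.log n) (Finset.Ioc x (x + h x))
      (by
        intro n hn
        rw [Finset.mem_Ioc] at hn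
        have := log_gt_one n (by omega)
        rw [div_lt_one (by linarith)]
        exact this) (m x) (1 / Real.log ((x : ℝ) + h x)) (by positivity)
      (by
        intro n hn
        rw [Finset.mem_Ioc] at hn
        have h1 := log_gt_one n (by omega)
        apply one_div_le_one_div_of_le (by linarith)
        apply Real.log_le_log (by exact_mod_cast (by omega : 0 < n))
        exact_mod_cast hn.2)
      (by
        intro T hT hTm
        apply real_biInter k P A hM hI
        intro n hn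
        have h1 := Finset.mem_Ioc.mp (hT hn)
        refine ⟨by omega, hTm.trans ?_⟩
        have h2 : (2 * m x : ℕ) ≤ k x := by
          have h3 : ((2 * m x : ℕ) : ℝ) ≤ k x := by
            push_cast
            have : (m x : ℝ) ≤ a * Real.log x := Nat.floor_le (by positivity)
            linarith
          exact_mod_cast h3
        exact h2.trans (hk h1.1.le))
    rw [Nat.card_Ioc, Nat.add_sub_cancel_left] at hkey
    set c : ℝ := ((h x).choose (m x) : ℝ) * (1 / Real.log ((x : ℝ) + h x)) ^ (m x) with hc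
    have hchpos : (0 : ℝ) < (h x).choose (m x) := by exact_mod_cast Nat.choose_pos hx2
    have hc0 : 0 < c := by positivity
    have hlogc : G x ≤ Real.log c := by
      rw [hc, Real.log_mul hchpos.ne' (by positivity), Real.log_pow, one_div, Real.log_inv]
      have := log_choose_ge (h x) (m x) hx1 hx2
      rw [hG]
      simp only
      linarith
    have hx7 : (0 : ℝ) < x := by exact_mod_cast (by omega : 0 < x)
    have hGx : (1 + δ) * Real.log x ≤ G x := by
      rw [lt_div_iff₀ hx5] at hx
      exact hx.le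
    have hcx : (x : ℝ) ^ (1 + δ) ≤ c := by
      rw [← Real.log_le_log_iff (by positivity) hc0, Real.log_rpow hx7]
      linarith
    rw [Real.rpow_neg hx7.le, ← one_div, le_div_iff₀ (by positivity)]
    calc P.real (E x) * (x : ℝ) ^ (1 + δ) ≤ P.real (E x) * c :=
          mul_le_mul_of_nonneg_left hcx measureReal_nonneg
      _ ≤ 1 := hkey
  have hsum : Summable (fun x => P.real (E x)) := by
    have h1 : Summable (fun x : ℕ => (x : ℝ) ^ (-(1 + δ))) := by
      rw [Real.summable_nat_rpow]; linarith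
    apply Summable.of_norm_bounded_eventually_nat h1
    filter_upwards [hbound] with x hx
    rw [Real.norm_of_nonneg measureReal_nonneg]
    exact hx
  have htsum : ∑' x, P (E x) ≠ ⊤ := by
    have h1 : ∀ x, P (E x) = ENNReal.ofReal (P.real (E x)) := fun x => by
      rw [ofReal_measureReal]
    simp_rw [h1]
    exact hsum.tsum_ofReal_ne_top
  have hae := ae_eventually_notMem htsum
  filter_upwards [hae] with ω hω
  apply limsupRatio_le
  filter_upwards [hω, eventually_ge_atTop 3] with x hx hx3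
  rw [hE] at hx
  simp only [Set.mem_iInter, not_forall, Set.mem_compl_iff, not_not] at hx
  obtain ⟨n, hn, hnA⟩ := hx
  rw [Finset.mem_Ioc] at hn
  refine ⟨n, ⟨by omega, hnA⟩, hn.1, ?_⟩
  have h1 : (n : ℝ) ≤ x + h x := by exact_mod_cast hn.2
  have h2 : (h x : ℝ) ≤ C * (Real.log x) ^ 2 := Nat.floor_le (by positivity)
  linarith

end Pool.Agent.H1.LI
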