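import Pool.Agent.H1.LIWindow
import Pool.Agent.H1.LIPartA

/-!
# Limited independence: sharpness (helper1, MP_028722_nt)
-/

namespace Pool.Agent.H1.LI

open MeasureTheory Filter Topology ProbabilityTheory

lemma tsum_top (I : Set ℕ) (Q : ℕ → Finset ℕ) (hI : ∀ t, ∀ q ∈ Q t, Nat.pair t q ∈ I)
    (g : ℕ → ENNReal) (h : ∀ t, 1 ≤ ∑ q ∈ Q t, g (Nat.pair t q)) :
    ∑' i, I.indicator g i = ⊤ := by
  have h1 : ∑' i, I.indicator g i = ∑' x : ℕ × ℕ, I.indicator g (Nat.pair x.1 x.2) :=
    (Nat.pairEquiv.tsum_eq (I.indicator g)).symm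
  rw [h1, ENNReal.tsum_prod (f := fun t q => I.indicator g (Nat.pair t q)), eq_top_iff]
  have h2 : ∑' _ : ℕ, (1 : ENNReal) = ⊤ := ENNReal.tsum_const_eq_top_of_ne_zero one_ne_zero
  rw [← h2]
  apply ENNReal.tsum_le_tsum
  intro t
  refine le_trans (h t) ?_
  calc ∑ q ∈ Q t, g (Nat.pair t q) = ∑ q ∈ Q t, I.indicator g (Nat.pair t q) := by
        apply Finset.sum_congr rfl
        intro q hq
        rw [Set.indicator_of_mem (hI t q hq)]
    _ ≤ _ := ENNReal.sum_le_tsum _

/-- Approximating the constant from below. -/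
lemma exists_seq_const (κ : EReal) : ∃ C : ℕ → ℝ, (∀ t, 0 < C t) ∧
    (∀ t, (C t : EReal) < cramerConst κ) ∧
    (∀ x : EReal, x < cramerConst κ → ∀ᶠ t in atTop, x < (C t : EReal)) := by
  have hreal : ∀ c : ℝ, 0 < c → ∃ C : ℕ → ℝ, (∀ t, 0 < C t) ∧
      (∀ t, (C t : EReal) < (c : EReal)) ∧
      (∀ x : EReal, x < (c : EReal) → ∀ᶠ t in atTop, x < (C t : EReal)) := by
    intro c hc
    refine ⟨fun t => c * (1 - 1 / ((t : ℝ) + 2)), ?_, ?_, ?_⟩
    · intro t
      have : 1 / ((t : ℝ) + 2) < 1 := by
        rw [div_lt_one (by positivity)]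
        have : (0 : ℝ) ≤ t := Nat.cast_nonneg t
        linarith
      apply mul_pos hc; linarith
    · intro t
      rw [EReal.coe_lt_coe_iff]
      have : 0 < 1 / ((t : ℝ) + 2) := by positivity
      nlinarith
    · intro x hx
      have h1 : Tendsto (fun t : ℕ => c * (1 - 1 / ((t : ℝ) + 2))) atTop (𝓝 (c * (1 - 0))) := by
        apply Tendsto.const_mul
        apply Tendsto.const_sub
        have h2 : Tendsto (fun t : ℕ => (t : ℝ) + 2) atTop atTop :=
          tendsto_atTop_add_const_right _ _ tendsto_natCast_atTop_atTop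
        have := tendsto_inv_atTop_zero.comp h2
        refine this.congr (fun t => ?_)
        simp
      rw [sub_zero, mul_one] at h1
      have h3 : Tendsto (fun t : ℕ => ((c * (1 - 1 / ((t : ℝ) + 2)) : ℝ) : EReal)) atTop
          (𝓝 (c : EReal)) := (continuous_coe_real_ereal.tendsto c).comp h1
      exact h3.eventually (lt_mem_nhds hx)
  unfold cramerConst
  split_ifs with h1 h2
  · refine ⟨fun t => (t : ℝ) + 1, fun t => by positivity, fun t => EReal.coe_lt_top _, ?_⟩
    intro x hx
    have h2 : Tendsto (fun t : ℕ => (t : ℝ) + 1) atTop atTop :=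
      tendsto_atTop_add_const_right _ _ tendsto_natCast_atTop_atTop
    have h3 : Tendsto (fun t : ℕ => (((t : ℝ) + 1 : ℝ) : EReal)) atTop (𝓝 ⊤) :=
      EReal.tendsto_coe_nhds_top_iff.mpr h2
    exact h3.eventually (lt_mem_nhds hx)
  · apply hreal
    have hne_top : κ ≠ ⊤ := ne_top_of_lt h2
    push Not at h1
    have : 0 < κ.toReal := EReal.toReal_pos h1 hne_top
    positivity
  · exact hreal 1 one_pos

/-- A deterministic lemma: an element-free block gives a large normalised gap. -/
lemma gap_of_block (S : Set ℕ) (hS3 : ∀ n ∈ S, 3 ≤ n) (hinf : S.Infinite) (s L b : ℕ) (C : ℝ)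
    (hsb : s + L ≤ b) (hCL : C * (Real.log b) ^ 2 ≤ L) (hC : 0 ≤ C)
    (hempty : ∀ n, s ≤ n → n < s + L → n ∉ S) (J : ℕ)
    [DecidablePred (· ∈ S)] (hJ : J + 1 ≤ Nat.count (· ∈ S) s) :
    ∃ j ≥ J, C ≤ gapRatio S j := by
  have hinf' : (setOf (fun n => n ∈ S)).Infinite := hinf
  obtain ⟨j, hj⟩ : ∃ j, Nat.count (· ∈ S) s = j + 1 := ⟨Nat.count (· ∈ S) s - 1, by omega⟩
  refine ⟨j, by omega, ?_⟩
  have h1 : Nat.nth (· ∈ S) j < s := Nat.nth_lt_of_lt_count (by omega)
  have h2 : s ≤ Nat.nth (· ∈ S) (j + 1) := by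
    rw [← hj]; exact Nat.le_nth_count hinf' s
  have hmem : ∀ i, Nat.nth (· ∈ S) i ∈ S := fun i => Nat.nth_mem_of_infinite hinf' i
  have h3 : s + L ≤ Nat.nth (· ∈ S) (j + 1) := by
    by_contra hcon
    push Not at hcon
    exact hempty _ h2 hcon (hmem _)
  have h4 : 3 ≤ Nat.nth (· ∈ S) j := hS3 _ (hmem j)
  have h5 : 0 < Real.log (Nat.nth (· ∈ S) j) := by
    apply Real.log_pos
    exact_mod_cast (by omega : 1 < Nat.nth (· ∈ S) j)
  unfold gapRatio
  rw [le_div_iff₀ (by positivity)]
  have h6 : Real.log (Nat.nth (· ∈ S) j) ≤ Real.log b := by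
    apply Real.log_le_log
    · exact_mod_cast (by omega : 0 < Nat.nth (· ∈ S) j)
    · exact_mod_cast (by omega : Nat.nth (· ∈ S) j ≤ b)
  have h7 : (Real.log (Nat.nth (· ∈ S) j)) ^ 2 ≤ (Real.log b) ^ 2 := by gcongr
  have h8 : ((s + L : ℕ) : ℝ) ≤ (Nat.nth (· ∈ S) (j + 1) : ℝ) := by exact_mod_cast h3
  have h9 : (Nat.nth (· ∈ S) j : ℝ) ≤ s := by exact_mod_cast h1.le
  push_cast at h8
  calc C * (Real.log (Nat.nth (· ∈ S) j)) ^ 2 ≤ C * (Real.log b) ^ 2 :=
        mul_le_mul_of_nonneg_left h7 hC
    _ ≤ L := hCL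
    _ ≤ _ := by linarith

theorem lower (k : ℕ → ℕ) (hk : Monotone k) :
    ∃ (Ω : Type) (_ : MeasurableSpace Ω) (P : Measure Ω) (_ : IsProbabilityMeasure P)
      (A : ℕ → Set Ω), CramerModel P A ∧ KWise k P A ∧
      ∀ᵐ ω ∂P, (rset A ω).Infinite ∧ cramerConst (rate k) ≤ limsupRatio (rset A ω) := by
  classical
  obtain ⟨C, hC0, hC1, hC2⟩ := exists_seq_const (rate k)
  have hwin := fun (t N : ℕ) => window k (C t) (hC0 t) (hC1 t) N
  choose wb wL wa wc hw1 hw2 hw3 hw4 hw5 hw6 hw7 hw8 hw9 using hwin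
  set b : ℕ → ℕ := fun t => Nat.rec 0 (fun t N => wb t N) t with hb
  have hbs : ∀ t, b (t + 1) = wb t (b t) := fun t => rfl
  have hb0 : b 0 = 0 := rfl
  have hbmono : StrictMono b := strictMono_nat_of_lt_succ (fun t => by rw [hbs]; exact hw1 t (b t))
  set L : ℕ → ℕ := fun t => wL t (b t) with hL
  set a : ℕ → ℕ := fun t => wa t (b t) with ha
  set c : ℕ → ℝ := fun t => wc t (b t) with hc
  set Q : ℕ → Finset ℕ := fun t => Finset.Ico (a t) (b (t + 1) / L t) with hQ
  have hL1 : ∀ t, 1 ≤ L t := fun t => hw2 t (b t)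
  have hab : ∀ t, b t ≤ a t := fun t => hw6 t (b t)
  have ha8 : ∀ t, 8 ≤ a t := fun t => hw7 t (b t)
  have hCL : ∀ t, C t * (Real.log (b (t + 1))) ^ 2 ≤ L t := fun t => hw5 t (b t)
  set τ : ℕ → ℕ := fun n => Nat.findGreatest (fun t => b t ≤ n) n with hτ
  have hτ1 : ∀ n, b (τ n) ≤ n := by
    intro n
    exact Nat.findGreatest_spec (P := fun t => b t ≤ n) (Nat.zero_le n) (by rw [hb0]; exact Nat.zero_le n)
  have hτ2 : ∀ n, n < b (τ n + 1) := by
    intro n
    by_contra hcon
    push Not at hcon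
    have h1 : τ n + 1 ≤ n := le_trans (hbmono.id_le (τ n + 1)) hcon
    exact Nat.findGreatest_is_greatest (P := fun t => b t ≤ n) (Nat.lt_succ_self _) h1 hcon
  have hτ3 : ∀ n t, b t ≤ n → n < b (t + 1) → τ n = t := by
    intro n t h1 h2
    have h3 : t < τ n + 1 := hbmono.lt_iff_lt.mp (lt_of_le_of_lt h1 (hτ2 n))
    have h4 : τ n < t + 1 := hbmono.lt_iff_lt.mp (lt_of_le_of_lt (hτ1 n) h2)
    omega
  set β : ℕ → ℕ := fun n => Nat.pair (τ n) (n / L (τ n)) with hβ
  set B : ℕ → Finset ℕ := fun i =>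
    (Finset.range (b ((Nat.unpair i).1 + 1))).filter (fun n => 3 ≤ n ∧ β n = i) with hB
  have hBβ : ∀ n, 3 ≤ n → ∀ i, n ∈ B i ↔ i = β n := by
    intro n hn i
    rw [hB]
    simp only [Finset.mem_filter, Finset.mem_range]
    constructor
    · rintro ⟨_, _, h⟩; exact h.symm
    · intro h
      refine ⟨?_, hn, h.symm⟩
      rw [h, hβ]
      simp only [Nat.unpair_pair]
      exact hτ2 n
  have hB3 : ∀ i, ∀ n ∈ B i, 3 ≤ n := by
    intro i n hn
    rw [hB] at hn
    simp only [Finset.mem_filter] at hn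
    exact hn.2.1
  -- description of the good blocks
  have hstart : ∀ t, ∀ q ∈ Q t, a t ≤ q * L t ∧ (q + 1) * L t ≤ b (t + 1) := by
    intro t q hq
    rw [hQ, Finset.mem_Ico] at hq
    constructor
    · calc a t ≤ q := hq.1
        _ = q * 1 := (mul_one q).symm
        _ ≤ q * L t := Nat.mul_le_mul_left q (hL1 t)
    · calc (q + 1) * L t ≤ (b (t + 1) / L t) * L t := Nat.mul_le_mul_right _ hq.2
        _ ≤ b (t + 1) := Nat.div_mul_le_self _ _
  have hgood : ∀ t, ∀ q ∈ Q t, B (Nat.pair t q) = Finset.Ico (q * L t) ((q + 1) * L t) := by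
    intro t q hq
    obtain ⟨h1, h2⟩ := hstart t q hq
    ext n
    rw [Finset.mem_Ico]
    constructor
    · intro hn
      have hn3 := hB3 _ n hn
      have h3 := (hBβ n hn3 _).mp hn
      rw [hβ] at h3
      simp only at h3
      have h4 := congrArg Nat.unpair h3
      rw [Nat.unpair_pair, Nat.unpair_pair] at h4
      have h5 : τ n = t := (Prod.ext_iff.mp h4).1.symm
      have h6 : n / L (τ n) = q := (Prod.ext_iff.mp h4).2.symm
      rw [h5] at h6
      have hLp : 0 < L t := hL1 t
      rw [Nat.div_eq_iff hLp] at h6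
      constructor
      · omega
      · have : (q + 1) * L t = q * L t + L t := by ring
        omega
    · rintro ⟨h3, h4⟩
      have hn3 : 3 ≤ n := by have := ha8 t; omega
      rw [hBβ n hn3]
      have h5 : τ n = t := hτ3 n t (by have := hab t; omega) (by omega)
      rw [hβ]
      simp only
      rw [h5]
      congr 1
      symm
      rw [Nat.div_eq_iff (hL1 t)]
      constructor
      · omega
      · have : (q + 1) * L t = q * L t + L t := by ring
        have := hL1 t
        omega
  set I : Set ℕ := {i | (Nat.unpair i).2 ∈ Q (Nat.unpair i).1} with hI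
  have hIQ : ∀ t, ∀ q ∈ Q t, Nat.pair t q ∈ I := by
    intro t q hq
    change (Nat.unpair (Nat.pair t q)).2 ∈ Q (Nat.unpair (Nat.pair t q)).1
    rw [Nat.unpair_pair]
    exact hq
  have hIform : ∀ i ∈ I, ∃ t, ∃ q ∈ Q t, i = Nat.pair t q := by
    intro i hi
    exact ⟨(Nat.unpair i).1, (Nat.unpair i).2, hi, (Nat.pair_unpair i).symm⟩
  obtain ⟨Ω, mΩ, P, hP, A, hM, hKW, hE, hF⟩ := glue k B β hBβ hB3
    (fun i => c (Nat.unpair i).1) (fun i => hw3 _ _) (fun i => hw4 _ _)
  refine ⟨Ω, mΩ, P, hP, A, hM, hKW, ?_⟩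
  -- first application: empty blocks
  have hloga : ∀ t, 0 < Real.log (a t) := by
    intro t
    apply Real.log_pos
    have := ha8 t
    exact_mod_cast (by omega : 1 < a t)
  have hsum1 : (∑' i, I.indicator (fun i => ENNReal.ofReal
      (vlow (B i) ((B i).sup k + 1) (c (Nat.unpair i).1))) i) = ⊤ := by
    apply tsum_top I Q hIQ
    intro t
    set v : ℝ := c t ^ (k (b (t + 1)) + 1) * Real.exp (-(c t ^ 2 * (L t / Real.log (a t)) +
      3 * (L t / (Real.log (a t)) ^ 2))) with hv
    have hc0 : 0 < c t := hw3 t (b t)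
    have hc1 : c t ≤ 1 := hw4 t (b t)
    have hv0 : 0 ≤ v := by positivity
    have hvle : ∀ q ∈ Q t, v ≤ vlow (B (Nat.pair t q)) ((B (Nat.pair t q)).sup k + 1)
        (c (Nat.unpair (Nat.pair t q)).1) := by
      intro q hq
      obtain ⟨h1, h2⟩ := hstart t q hq
      rw [Nat.unpair_pair, hgood t q hq, vlow, hv]
      simp only
      have hcard : (Finset.Ico (q * L t) ((q + 1) * L t)).card = L t := by
        rw [Nat.card_Ico]
        have : (q + 1) * L t = q * L t + L t := by ring
        omega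
      apply mul_le_mul _ _ (Real.exp_pos _).le (by positivity)
      · apply pow_le_pow_of_le_one hc0.le hc1
        apply Nat.succ_le_succ
        apply Finset.sup_le
        intro n hn
        rw [Finset.mem_Ico] at hn
        exact hk (by omega)
      · apply Real.exp_le_exp.mpr
        apply neg_le_neg
        have hle : ∀ n ∈ Finset.Ico (q * L t) ((q + 1) * L t), 1 / Real.log n ≤ 1 / Real.log (a t) := by
          intro n hn
          rw [Finset.mem_Ico] at hn
          apply one_div_le_one_div_of_le (hloga t)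
          apply Real.log_le_log
          · have := ha8 t
            exact_mod_cast (by omega : 0 < a t)
          · exact_mod_cast (by omega : a t ≤ n)
        have s1 : ∑ n ∈ Finset.Ico (q * L t) ((q + 1) * L t), (1 / Real.log (n : ℝ)) ≤
            L t / Real.log (a t) := by
          calc _ ≤ ∑ n ∈ Finset.Ico (q * L t) ((q + 1) * L t), 1 / Real.log (a t) :=
                Finset.sum_le_sum hle
            _ = _ := by rw [Finset.sum_const, hcard, nsmul_eq_mul]; ring
        have s2 : ∑ n ∈ Finset.Ico (q * L t) ((q + 1) * L t), (1 / Real.log (n : ℝ)) ^ 2 ≤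
            L t / (Real.log (a t)) ^ 2 := by
          calc _ ≤ ∑ n ∈ Finset.Ico (q * L t) ((q + 1) * L t), (1 / Real.log (a t)) ^ 2 := by
                apply Finset.sum_le_sum
                intro n hn
                apply pow_le_pow_left₀ _ (hle n hn)
                exact div_nonneg zero_le_one (Real.log_natCast_nonneg n)
            _ = _ := by rw [Finset.sum_const, hcard, nsmul_eq_mul]; ring
        have s3 := mul_le_mul_of_nonneg_left s1 (sq_nonneg (c t))
        linarith
    calc (1 : ENNReal) = ENNReal.ofReal 1 := ENNReal.ofReal_one.symm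
      _ ≤ ENNReal.ofReal (((Q t).card : ℝ) * v) := by
          apply ENNReal.ofReal_le_ofReal
          have := hw9 t (b t)
          rw [hQ]
          simp only
          rw [Nat.card_Ico]
          exact this
      _ = ∑ q ∈ Q t, ENNReal.ofReal v := by
          rw [Finset.sum_const, nsmul_eq_mul, ENNReal.ofReal_mul (Nat.cast_nonneg _),
            ENNReal.ofReal_natCast]
      _ ≤ _ := by
          apply Finset.sum_le_sum
          intro q hq
          exact ENNReal.ofReal_le_ofReal (hvle q hq)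
  have hI8 : ∀ i ∈ I, ∀ n ∈ B i, 8 ≤ n := by
    intro i hi n hn
    obtain ⟨t, q, hq, rfl⟩ := hIform i hi
    rw [hgood t q hq, Finset.mem_Ico] at hn
    obtain ⟨h1, h2⟩ := hstart t q hq
    have := ha8 t
    omega
  have hE' := hE I hI8 hsum1
  -- second application: infinitely many elements
  set f : ℕ → ℕ := fun i => (Nat.unpair i).2 * L (Nat.unpair i).1 with hf
  have hfB : ∀ i ∈ I, f i ∈ B i := by
    intro i hi
    obtain ⟨t, q, hq, rfl⟩ := hIform i hi
    rw [hgood t q hq, Finset.mem_Ico, hf]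
    simp only [Nat.unpair_pair]
    constructor
    · exact le_refl _
    · have := hL1 t
      nlinarith
  have hsum2 : (∑' i, I.indicator (fun i => ENNReal.ofReal (1 / Real.log (f i))) i) = ⊤ := by
    apply tsum_top I Q hIQ
    intro t
    have hbt : 0 < Real.log (b (t + 1)) := by
      apply Real.log_pos
      have h1 := hw9 t (b t)
      have h2 : a t < b (t + 1) := by
        by_contra hcon
        push Not at hcon
        have h3 : wb t (b t) / wL t (b t) - wa t (b t) = 0 := by
          have : wb t (b t) / wL t (b t) ≤ wb t (b t) := Nat.div_le_self _ _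
          have h4 : wb t (b t) ≤ wa t (b t) := hcon
          omega
        rw [h3] at h1
        simp at h1
        linarith
      have := ha8 t
      exact_mod_cast (by omega : 1 < b (t + 1))
    have hle : ∀ q ∈ Q t, 1 / Real.log (b (t + 1)) ≤ 1 / Real.log (f (Nat.pair t q)) := by
      intro q hq
      obtain ⟨h1, h2⟩ := hstart t q hq
      rw [hf]
      simp only [Nat.unpair_pair]
      have h3 : (q * L t) ≤ b (t + 1) := by
        have : (q + 1) * L t = q * L t + L t := by ring
        omega
      have h4 := ha8 t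
      apply one_div_le_one_div_of_le
      · apply Real.log_pos
        exact_mod_cast (by omega : 1 < q * L t)
      · apply Real.log_le_log
        · exact_mod_cast (by omega : 0 < q * L t)
        · exact_mod_cast h3
    calc (1 : ENNReal) = ENNReal.ofReal 1 := ENNReal.ofReal_one.symm
      _ ≤ ENNReal.ofReal (((Q t).card : ℝ) * (1 / Real.log (b (t + 1)))) := by
          apply ENNReal.ofReal_le_ofReal
          have h5 := hw8 t (b t)
          rw [hQ]
          simp only
          rw [Nat.card_Ico, mul_one_div, le_div_iff₀ hbt, one_mul]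
          exact h5
      _ = ∑ q ∈ Q t, ENNReal.ofReal (1 / Real.log (b (t + 1))) := by
          rw [Finset.sum_const, nsmul_eq_mul, ENNReal.ofReal_mul (Nat.cast_nonneg _),
            ENNReal.ofReal_natCast]
      _ ≤ _ := by
          apply Finset.sum_le_sum
          intro q hq
          exact ENNReal.ofReal_le_ofReal (hle q hq)
  have hF' := hF I f hfB hsum2
  -- indices of good blocks tend to infinity with the window
  have hlarge : ∀ T : ℕ, ∀ᶠ i in atTop, i ∈ I → T < (Nat.unpair i).1 := by
    intro T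
    set bad : Finset ℕ := (Finset.range (T + 1)).biUnion
      (fun t => (Q t).image (fun q => Nat.pair t q)) with hbad
    have h1 : ∀ᶠ i in atTop, i ∉ bad := by
      filter_upwards [eventually_gt_atTop (bad.sup id)] with i hi hmem
      have : i ≤ bad.sup id := Finset.le_sup (f := id) hmem
      omega
    filter_upwards [h1] with i hi hiI
    by_contra hcon
    push Not at hcon
    apply hi
    rw [hbad, Finset.mem_biUnion]
    refine ⟨(Nat.unpair i).1, Finset.mem_range.mpr (by omega), ?_⟩
    rw [Finset.mem_image]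
    exact ⟨(Nat.unpair i).2, hiI, Nat.pair_unpair i⟩
  filter_upwards [hE', hF'] with ω hω1 hω2
  have hinf : (rset A ω).Infinite := by
    rw [Set.infinite_iff_exists_gt]
    intro x
    obtain ⟨i, ⟨hiI, hiA⟩, hiT⟩ := (hω2.and_eventually (hlarge x)).exists
    obtain ⟨t, q, hq, rfl⟩ := hIform i hiI
    have h1 := hiT hiI
    rw [Nat.unpair_pair] at h1
    have h2 := (hstart t q hq).1
    have h3 : b t ≤ a t := hab t
    have h4 : t ≤ b t := hbmono.id_le t
    have h5 : f (Nat.pair t q) = q * L t := by rw [hf]; simp only [Nat.unpair_pair]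
    have h6 := ha8 t
    refine ⟨f (Nat.pair t q), ⟨by rw [h5]; omega, hiA⟩, ?_⟩
    rw [h5]
    simp only at h1
    omega
  refine ⟨hinf, ?_⟩
  apply le_of_forall_lt
  intro x hx
  obtain ⟨y, hxy, hy⟩ := exists_between hx
  refine lt_of_lt_of_le hxy ?_
  have hev := hC2 y hy
  obtain ⟨T0, hT0⟩ := eventually_atTop.mp hev
  unfold limsupRatio
  apply le_limsup_of_frequently_le
  · rw [frequently_atTop]
    intro J
    -- find a large window
    have hinf' : (setOf (fun n => n ∈ rset A ω)).Infinite := hinf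
    set N1 : ℕ := Nat.nth (· ∈ rset A ω) (J + 1) + 1 with hN1
    obtain ⟨i, ⟨hiI, hiA⟩, hiT⟩ := (hω1.and_eventually (hlarge (max T0 N1))).exists
    obtain ⟨t, q, hq, rfl⟩ := hIform i hiI
    have h1 := hiT hiI
    rw [Nat.unpair_pair] at h1
    simp only at h1
    have h2 := hstart t q hq
    have h3 : b t ≤ a t := hab t
    have h4 : t ≤ b t := hbmono.id_le t
    have h5 : J + 1 ≤ Nat.count (· ∈ rset A ω) (q * L t) := by
      have h6 : Nat.nth (· ∈ rset A ω) (J + 1) ≤ q * L t := by
        have := le_max_right T0 N1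
        omega
      have h7 : Nat.count (· ∈ rset A ω) (Nat.nth (· ∈ rset A ω) (J + 1)) = J + 1 :=
        Nat.count_nth_of_infinite hinf' (J + 1)
      rw [← h7]
      exact Nat.count_monotone _ h6
    obtain ⟨j, hjJ, hj⟩ := gap_of_block (rset A ω) (fun n hn => hn.1) hinf (q * L t) (L t)
      (b (t + 1)) (C t) (by have : (q + 1) * L t = q * L t + L t := by ring
                            omega) (hCL t) (hC0 t).le (by
        intro n hn1 hn2 hnS
        rw [hgood t q hq] at hiA
        exact hiA n (by rw [Finset.mem_Ico]; constructor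
                        · exact hn1
                        · have : (q + 1) * L t = q * L t + L t := by ring
                          omega) hnS.2) J h5
    refine ⟨j, hjJ, ?_⟩
    have h8 : y < (C t : EReal) := hT0 t (by have := le_max_left T0 N1; omega)
    exact le_trans h8.le (by exact_mod_cast hj)
  · isBoundedDefault

end Pool.Agent.H1.LI
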