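import Mathlib

/-!
# Upper bound for the probability of an empty block (helper1, MP_028722_nt)

If the events `A n`, `n ∈ I`, are `2m`-wise independent with probabilities `p n`, then the
probability that none of them occurs is at most
`1 / ∑_{T ⊆ I, |T| ≤ m} ∏_{n ∈ T} p n / (1 - p n)`.
-/

namespace Pool.Agent.H1.LI

open Finset MeasureTheory

variable {Ω : Type*} [MeasurableSpace Ω]

/-- Indicator of the event `A n`. -/
noncomputable def ind (A : ℕ → Set Ω) (n : ℕ) (ω : Ω) : ℝ := (A n).indicator (fun _ => (1 : ℝ)) ω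

lemma prod_ind (A : ℕ → Set Ω) (T : Finset ℕ) (ω : Ω) :
    ∏ n ∈ T, ind A n ω = (⋂ n ∈ T, A n).indicator (fun _ => (1 : ℝ)) ω := by
  classical
  by_cases h : ω ∈ ⋂ n ∈ T, A n
  · rw [Set.indicator_of_mem h]
    apply Finset.prod_eq_one
    intro n hn
    rw [Set.mem_iInter₂] at h
    exact Set.indicator_of_mem (h n hn) _
  · rw [Set.indicator_of_notMem h]
    rw [Set.mem_iInter₂] at h
    push Not at h
    obtain ⟨n, hn, hn'⟩ := h
    apply Finset.prod_eq_zero hn
    exact Set.indicator_of_notMem hn' _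

lemma measurable_ind (A : ℕ → Set Ω) (hA : ∀ n, MeasurableSet (A n)) (n : ℕ) :
    Measurable (ind A n) := measurable_const.indicator (hA n)

lemma integral_affine (P : Measure Ω) [IsProbabilityMeasure P] (A : ℕ → Set Ω)
    (hA : ∀ n, MeasurableSet (A n)) (p : ℕ → ℝ) (W : Finset ℕ)
    (hW : ∀ T ⊆ W, P.real (⋂ n ∈ T, A n) = ∏ n ∈ T, p n) (a b : ℕ → ℝ) :
    ∫ ω, ∏ n ∈ W, (a n + b n * ind A n ω) ∂P = ∏ n ∈ W, (a n + b n * p n) := by
  classical
  have h1 : ∀ ω, ∏ n ∈ W, (a n + b n * ind A n ω) = ∑ T ∈ W.powerset,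
      ((∏ n ∈ T, b n) * ∏ n ∈ W \ T, a n) * (⋂ n ∈ T, A n).indicator (fun _ => (1 : ℝ)) ω := by
    intro ω
    have : ∀ n ∈ W, a n + b n * ind A n ω = b n * ind A n ω + a n := fun n _ => add_comm _ _
    rw [Finset.prod_congr rfl this, Finset.prod_add]
    apply Finset.sum_congr rfl
    intro T _
    rw [Finset.prod_mul_distrib, prod_ind]
    ring
  simp_rw [h1]
  rw [integral_finsetSum]
  · have h2 : ∀ T ∈ W.powerset, ∫ ω, ((∏ n ∈ T, b n) * ∏ n ∈ W \ T, a n) *
        (⋂ n ∈ T, A n).indicator (fun _ => (1 : ℝ)) ω ∂P =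
        (∏ n ∈ T, b n * p n) * ∏ n ∈ W \ T, a n := by
      intro T hT
      rw [integral_const_mul, integral_indicator_const _
        (Finset.measurableSet_biInter _ (fun n _ => hA n)), hW T (Finset.mem_powerset.mp hT),
        Finset.prod_mul_distrib]
      simp only [smul_eq_mul, mul_one]
      ring
    rw [Finset.sum_congr rfl h2, ← Finset.prod_add]
    apply Finset.prod_congr rfl
    intro n _; ring
  · intro T _
    apply Integrable.const_mul
    exact (integrable_const _).indicator (Finset.measurableSet_biInter _ (fun n _ => hA n))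

theorem prob_empty_le (P : Measure Ω) [IsProbabilityMeasure P] (A : ℕ → Set Ω)
    (hA : ∀ n, MeasurableSet (A n)) (p : ℕ → ℝ) (I : Finset ℕ)
    (hp0 : ∀ n ∈ I, 0 < p n) (hp1 : ∀ n ∈ I, p n < 1) (m : ℕ)
    (hI : ∀ T ⊆ I, T.card ≤ 2 * m → P.real (⋂ n ∈ T, A n) = ∏ n ∈ T, p n) :
    P.real (⋂ n ∈ I, (A n)ᶜ) *
      ∑ T ∈ I.powerset.filter (fun T => T.card ≤ m), ∏ n ∈ T, (p n / (1 - p n)) ≤ 1 := by
  classical
  set F : Finset (Finset ℕ) := I.powerset.filter (fun T => T.card ≤ m) with hF
  have hFmem : ∀ T, T ∈ F ↔ T ⊆ I ∧ T.card ≤ m := by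
    intro T; rw [hF, Finset.mem_filter, Finset.mem_powerset]
  set r : ℕ → ℝ := fun n => p n / (1 - p n) with hr
  have hr0 : ∀ n ∈ I, 0 < r n := by
    intro n hn
    have h1 := hp0 n hn
    have h2 := hp1 n hn
    exact div_pos h1 (by linarith)
  set U : ℕ → Ω → ℝ := fun n ω => r n + (-(1 / (1 - p n))) * ind A n ω with hU
  set K : ℝ := ∑ T ∈ F, ∏ n ∈ T, r n with hK
  have hK1 : 1 ≤ K := by
    have : ∏ n ∈ (∅ : Finset ℕ), r n ≤ K := by
      apply Finset.single_le_sum (f := fun T => ∏ n ∈ T, r n)
      · intro T hT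
        exact Finset.prod_nonneg fun n hn => (hr0 n (((hFmem T).mp hT).1 hn)).le
      · rw [hFmem]; simp
    simpa using this
  set Q : Ω → ℝ := fun ω => ∑ T ∈ F, ∏ n ∈ T, U n ω with hQ
  have hUmeas : ∀ n, Measurable (U n) := by
    intro n
    exact measurable_const.add ((measurable_ind A hA n).const_mul _)
  have hQmeas : Measurable Q := by
    apply Finset.measurable_sum
    intro T _
    exact Finset.measurable_prod T (fun n _ => hUmeas n)
  -- boundedness
  have hUbdd : ∀ n ω, |U n ω| ≤ |r n| + |1 / (1 - p n)| := by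
    intro n ω
    have h1 : |ind A n ω| ≤ 1 := by
      unfold ind
      by_cases h : ω ∈ A n
      · rw [Set.indicator_of_mem h]; simp
      · rw [Set.indicator_of_notMem h]; simp
    calc |U n ω| ≤ |r n| + |(-(1 / (1 - p n))) * ind A n ω| := abs_add_le _ _
      _ ≤ |r n| + |1 / (1 - p n)| := by
        rw [abs_mul, abs_neg]
        have := mul_le_mul_of_nonneg_left h1 (abs_nonneg (1 / (1 - p n)))
        linarith
  have hprodint : ∀ T T' : Finset ℕ, Integrable (fun ω => (∏ n ∈ T, U n ω) * ∏ n ∈ T', U n ω) P := by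
    intro T T'
    apply Integrable.of_bound (C := (∏ n ∈ T, (|r n| + |1 / (1 - p n)|)) *
      ∏ n ∈ T', (|r n| + |1 / (1 - p n)|))
    · exact ((Finset.measurable_prod T (fun n _ => hUmeas n)).mul
        (Finset.measurable_prod T' (fun n _ => hUmeas n))).aestronglyMeasurable
    · filter_upwards with ω
      rw [norm_mul, norm_prod, norm_prod]
      apply mul_le_mul
      · exact Finset.prod_le_prod (fun n _ => norm_nonneg _) (fun n _ => hUbdd n ω)
      · exact Finset.prod_le_prod (fun n _ => norm_nonneg _) (fun n _ => hUbdd n ω)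
      · exact Finset.prod_nonneg fun n _ => norm_nonneg _
      · exact Finset.prod_nonneg fun n _ => by positivity
  -- orthogonality
  have horth : ∀ T ∈ F, ∀ T' ∈ F, ∫ ω, (∏ n ∈ T, U n ω) * ∏ n ∈ T', U n ω ∂P =
      if T = T' then ∏ n ∈ T, r n else 0 := by
    intro T hT T' hT'
    rw [hFmem] at hT hT'
    set α : ℕ → ℝ := fun n => if n ∈ T ∧ n ∈ T' then r n ^ 2 else r n with hα
    set β : ℕ → ℝ := fun n => if n ∈ T ∧ n ∈ T' then 1 - r n ^ 2 else -(1 / (1 - p n)) with hβ
    have h1 : ∀ ω, (∏ n ∈ T, U n ω) * ∏ n ∈ T', U n ω =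
        ∏ n ∈ T ∪ T', (α n + β n * ind A n ω) := by
      intro ω
      have e1 : ∏ n ∈ T, U n ω = ∏ n ∈ T ∪ T', (if n ∈ T then U n ω else 1) := by
        rw [Finset.prod_ite_mem]
        congr 1
        ext n; simp
      have e2 : ∏ n ∈ T', U n ω = ∏ n ∈ T ∪ T', (if n ∈ T' then U n ω else 1) := by
        rw [Finset.prod_ite_mem]
        congr 1
        ext n; simp
      rw [e1, e2, ← Finset.prod_mul_distrib]
      apply Finset.prod_congr rfl
      intro n hn
      have hnI : n ∈ I := by
        rcases Finset.mem_union.mp hn with h | h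
        · exact hT.1 h
        · exact hT'.1 h
      have hp1' := hp1 n hnI
      have hne : (1 : ℝ) - p n ≠ 0 := by linarith
      by_cases hn1 : n ∈ T
      · by_cases hn2 : n ∈ T'
        · simp only [hα, hβ, hn1, hn2, if_true, and_self, hU]
          have hind : ind A n ω = 0 ∨ ind A n ω = 1 := by
            unfold ind
            by_cases h : ω ∈ A n
            · right; rw [Set.indicator_of_mem h]
            · left; rw [Set.indicator_of_notMem h]
          have hr1 : r n - 1 / (1 - p n) = -1 := by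
            rw [hr]; field_simp; ring
          rcases hind with h | h
          · rw [h]; ring
          · rw [h]
            have : r n + -(1 / (1 - p n)) * 1 = -1 := by linarith
            rw [this]; ring
        · simp only [hα, hβ, hn1, hn2, if_true, and_false, if_false, hU, mul_one]
      · by_cases hn2 : n ∈ T'
        · simp only [hα, hβ, hn1, hn2, if_true, and_true, if_false, hU, one_mul]
        · exfalso
          rcases Finset.mem_union.mp hn with h | h
          · exact hn1 h
          · exact hn2 h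
    simp_rw [h1]
    rw [integral_affine P A hA p (T ∪ T')]
    · by_cases hTT : T = T'
      · subst hTT
        rw [if_pos rfl, Finset.union_self]
        apply Finset.prod_congr rfl
        intro n hn
        have hp1' := hp1 n (hT.1 hn)
        have hne : (1 : ℝ) - p n ≠ 0 := by linarith
        simp only [hα, hβ, hn, and_self, if_true, hr]
        field_simp
        ring
      · rw [if_neg hTT]
        have : ∃ n, n ∈ T ∪ T' ∧ ¬ (n ∈ T ∧ n ∈ T') := by
          by_contra hcon
          push Not at hcon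
          apply hTT
          ext n
          constructor
          · intro h; exact (hcon n (Finset.mem_union_left _ h)).2
          · intro h; exact (hcon n (Finset.mem_union_right _ h)).1
        obtain ⟨n, hn, hn'⟩ := this
        apply Finset.prod_eq_zero hn
        simp only [hα, hβ, if_neg hn']
        rw [hr]; ring
    · intro S hS
      apply hI S
      · intro n hn
        rcases Finset.mem_union.mp (hS hn) with h | h
        · exact hT.1 h
        · exact hT'.1 h
      · calc S.card ≤ (T ∪ T').card := Finset.card_le_card hS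
          _ ≤ T.card + T'.card := Finset.card_union_le _ _
          _ ≤ 2 * m := by omega
  have hQ2 : ∫ ω, Q ω ^ 2 ∂P = K := by
    have h1 : ∀ ω, Q ω ^ 2 = ∑ T ∈ F, ∑ T' ∈ F, (∏ n ∈ T, U n ω) * ∏ n ∈ T', U n ω := by
      intro ω
      rw [hQ, sq, Finset.sum_mul_sum]
    simp_rw [h1]
    rw [integral_finsetSum]
    · rw [hK]
      apply Finset.sum_congr rfl
      intro T hT
      rw [integral_finsetSum]
      · rw [Finset.sum_congr rfl (horth T hT)]
        rw [Finset.sum_ite_eq, if_pos hT]
      · intro T' _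
        exact hprodint T T'
    · intro T _
      apply integrable_finsetSum
      intro T' _
      exact hprodint T T'
  have hQ2int : Integrable (fun ω => Q ω ^ 2) P := by
    have h1 : (fun ω => Q ω ^ 2) = fun ω => ∑ T ∈ F, ∑ T' ∈ F, (∏ n ∈ T, U n ω) * ∏ n ∈ T', U n ω := by
      funext ω
      rw [hQ, sq, Finset.sum_mul_sum]
    rw [h1]
    apply integrable_finsetSum
    intro T _
    apply integrable_finsetSum
    intro T' _
    exact hprodint T T'
  set E0 : Set Ω := ⋂ n ∈ I, (A n)ᶜ with hE0
  have hE0meas : MeasurableSet E0 := Finset.measurableSet_biInter _ (fun n _ => (hA n).compl)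
  have hQE0 : ∀ ω ∈ E0, Q ω = K := by
    intro ω hω
    rw [hE0, Set.mem_iInter₂] at hω
    rw [hQ, hK]
    apply Finset.sum_congr rfl
    intro T hT
    apply Finset.prod_congr rfl
    intro n hn
    have h1 : ω ∉ A n := hω n (((hFmem T).mp hT).1 hn)
    have : ind A n ω = 0 := Set.indicator_of_notMem h1 _
    rw [hU]; simp only; rw [this, mul_zero, add_zero]
  have h1 : K ^ 2 * P.real E0 ≤ ∫ ω, Q ω ^ 2 ∂P := by
    have h2 : ∫ ω, E0.indicator (fun _ => K ^ 2) ω ∂P ≤ ∫ ω, Q ω ^ 2 ∂P := by
      apply integral_mono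
      · exact (integrable_const _).indicator hE0meas
      · exact hQ2int
      · intro ω
        by_cases h : ω ∈ E0
        · simp only [Set.indicator_of_mem h, hQE0 ω h, le_refl]
        · simp only [Set.indicator_of_notMem h]; positivity
    rw [integral_indicator_const _ hE0meas, smul_eq_mul] at h2
    linarith
  rw [hQ2] at h1
  have h3 : K * (P.real E0 * K) ≤ K * 1 := by nlinarith
  exact le_of_mul_le_mul_left h3 (by linarith)

/-- Simplified form: at least `choose |I| m * ρ ^ m` in the denominator. -/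
theorem prob_empty_le' (P : Measure Ω) [IsProbabilityMeasure P] (A : ℕ → Set Ω)
    (hA : ∀ n, MeasurableSet (A n)) (p : ℕ → ℝ) (I : Finset ℕ)
    (hp1 : ∀ n ∈ I, p n < 1) (m : ℕ) (ρ : ℝ) (hρ : 0 < ρ) (hρp : ∀ n ∈ I, ρ ≤ p n)
    (hI : ∀ T ⊆ I, T.card ≤ 2 * m → P.real (⋂ n ∈ T, A n) = ∏ n ∈ T, p n) :
    P.real (⋂ n ∈ I, (A n)ᶜ) * ((I.card.choose m : ℝ) * ρ ^ m) ≤ 1 := by
  classical
  refine le_trans ?_ (prob_empty_le P A hA p I (fun n hn => lt_of_lt_of_le hρ (hρp n hn)) hp1 m hI)
  apply mul_le_mul_of_nonneg_left _ measureReal_nonneg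
  calc (I.card.choose m : ℝ) * ρ ^ m = ∑ T ∈ I.powersetCard m, ρ ^ m := by
        rw [Finset.sum_const, Finset.card_powersetCard, nsmul_eq_mul]
    _ ≤ ∑ T ∈ I.powersetCard m, ∏ n ∈ T, (p n / (1 - p n)) := by
        apply Finset.sum_le_sum
        intro T hT
        rw [Finset.mem_powersetCard] at hT
        rw [← hT.2, ← Finset.prod_const]
        apply Finset.prod_le_prod
        · intro n _; exact hρ.le
        · intro n hn
          have h1 := hρp n (hT.1 hn)
          have h2 := hp1 n (hT.1 hn)
          rw [le_div_iff₀ (by linarith)]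
          nlinarith
    _ ≤ _ := by
        apply Finset.sum_le_sum_of_subset_of_nonneg
        · intro T hT
          rw [Finset.mem_powersetCard] at hT
          rw [Finset.mem_filter, Finset.mem_powerset]
          exact ⟨hT.1, hT.2.le⟩
        · intro T hT _
          rw [Finset.mem_filter, Finset.mem_powerset] at hT
          apply Finset.prod_nonneg
          intro n hn
          have h1 := hρp n (hT.1 hn)
          have h2 := hp1 n (hT.1 hn)
          apply div_nonneg <;> linarith

end Pool.Agent.H1.LI
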