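import Pool.Agent.H1.LIGlue

/-!
# Windows (helper1, MP_028722_nt)
-/

namespace Pool.Agent.H1.LI

open Filter Topology

lemma rate_nonneg (k : ℕ → ℕ) : 0 ≤ rate k := by
  unfold rate
  apply le_liminf_of_le
  · exact isCobounded_ge_of_top
  · apply Eventually.of_forall
    intro n
    have : (0 : ℝ) ≤ (k n : ℝ) / Real.log n := div_nonneg (Nat.cast_nonneg _) (Real.log_natCast_nonneg n)
    exact_mod_cast this

lemma exponent_exists (k : ℕ → ℕ) (C : ℝ) (hC0 : 0 < C) (hC : (C : EReal) < cramerConst (rate k)) :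
    ∃ c : ℝ, 0 < c ∧ c ≤ 1 ∧ ∃ e : ℝ, e < 1 ∧
      ∃ᶠ n : ℕ in atTop, (k n : ℝ) * Real.log (1 / c) + c ^ 2 * C * Real.log n ≤ e * Real.log n := by
  have hlog : Tendsto (fun x : ℕ => Real.log (x : ℝ)) atTop atTop :=
    Real.tendsto_log_atTop.comp tendsto_natCast_atTop_atTop
  have htriv : C < 1 → ∃ c : ℝ, 0 < c ∧ c ≤ 1 ∧ ∃ e : ℝ, e < 1 ∧
      ∃ᶠ n : ℕ in atTop, (k n : ℝ) * Real.log (1 / c) + c ^ 2 * C * Real.log n ≤ e * Real.log n := by
    intro hC1
    refine ⟨1, one_pos, le_refl _, C, hC1, ?_⟩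
    apply Eventually.frequently
    apply Eventually.of_forall
    intro n
    simp
  -- a general frequently statement
  have hfreq : ∀ q : ℝ, rate k < (q : EReal) → ∃ᶠ n : ℕ in atTop, (k n : ℝ) ≤ q * Real.log n := by
    intro q hq
    have h1 : ∃ᶠ n : ℕ in atTop, (((k n : ℝ) / Real.log n : ℝ) : EReal) < (q : EReal) :=
      frequently_lt_of_liminf_lt (by isBoundedDefault) hq
    apply (h1.and_eventually (hlog.eventually_gt_atTop 0)).mono
    rintro n ⟨hn, hn0⟩
    rw [EReal.coe_lt_coe_iff, div_lt_iff₀ hn0] at hn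
    exact hn.le
  have hκ0 := rate_nonneg k
  unfold cramerConst at hC
  by_cases h1 : rate k ≤ 0
  · -- `κ = 0`
    set c : ℝ := min 1 (Real.sqrt (1 / (4 * C))) with hc
    have hc0 : 0 < c := by positivity
    have hc1 : c ≤ 1 := min_le_left _ _
    have hcC : c ^ 2 * C ≤ 1 / 4 := by
      have h2 : c ≤ Real.sqrt (1 / (4 * C)) := min_le_right _ _
      have h3 : c ^ 2 ≤ 1 / (4 * C) := by
        calc c ^ 2 ≤ (Real.sqrt (1 / (4 * C))) ^ 2 := by gcongr
          _ = 1 / (4 * C) := Real.sq_sqrt (by positivity)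
      calc c ^ 2 * C ≤ 1 / (4 * C) * C := mul_le_mul_of_nonneg_right h3 hC0.le
        _ = 1 / 4 := by field_simp
    have hlc : 0 ≤ Real.log (1 / c) := Real.log_nonneg (by rw [le_div_iff₀ hc0]; linarith)
    set ε : ℝ := 1 / (4 * (Real.log (1 / c) + 1)) with hε
    have hε0 : 0 < ε := by positivity
    refine ⟨c, hc0, hc1, 3 / 4, by norm_num, ?_⟩
    have h2 := hfreq ε (lt_of_le_of_lt h1 (by exact_mod_cast hε0))
    apply (h2.and_eventually (hlog.eventually_gt_atTop 0)).mono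
    rintro n ⟨hn, hn0⟩
    have h3 : ε * Real.log (1 / c) ≤ 1 / 4 := by
      rw [hε, div_mul_eq_mul_div, one_mul, div_le_div_iff₀ (by positivity) (by norm_num)]
      linarith
    have h4 : (k n : ℝ) * Real.log (1 / c) ≤ 1 / 4 * Real.log n := by
      calc (k n : ℝ) * Real.log (1 / c) ≤ ε * Real.log n * Real.log (1 / c) :=
            mul_le_mul_of_nonneg_right hn hlc
        _ = (ε * Real.log (1 / c)) * Real.log n := by ring
        _ ≤ 1 / 4 * Real.log n := mul_le_mul_of_nonneg_right h3 hn0.le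
    have h5 : c ^ 2 * C * Real.log n ≤ 1 / 4 * Real.log n := mul_le_mul_of_nonneg_right hcC hn0.le
    linarith
  · rw [if_neg h1] at hC
    push Not at h1
    by_cases h2 : rate k < 2
    · rw [if_pos h2] at hC
      have hne_top : rate k ≠ ⊤ := ne_top_of_lt h2
      have hne_bot : rate k ≠ ⊥ := (EReal.bot_lt_zero.trans_le hκ0).ne'
      obtain ⟨q, hq⟩ : ∃ q : ℝ, rate k = (q : EReal) := ⟨(rate k).toReal, (EReal.coe_toReal hne_top hne_bot).symm⟩
      rw [hq] at h1 h2 hC
      rw [EReal.toReal_coe, EReal.coe_lt_coe_iff] at hC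
      have hq0 : 0 < q := by exact_mod_cast h1
      have hq2 : q < 2 := EReal.coe_lt_coe_iff.mp h2
      by_cases h3 : C ≤ q / 2
      · exact htriv (by linarith)
      · push Not at h3
        set c : ℝ := Real.sqrt (q / (2 * C)) with hc
        have hc0 : 0 < c := by positivity
        have hc2 : c ^ 2 = q / (2 * C) := Real.sq_sqrt (by positivity)
        have hc1 : c ≤ 1 := by
          rw [hc, ← Real.sqrt_one]
          apply Real.sqrt_le_sqrt
          rw [div_le_one (by positivity)]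
          linarith
        have hlogc : Real.log (1 / c) = 1 / 2 * Real.log (2 * C / q) := by
          have h4 : Real.log (c ^ 2) = Real.log (q / (2 * C)) := by rw [hc2]
          rw [Real.log_pow] at h4
          have h5 : Real.log (q / (2 * C)) = - Real.log (2 * C / q) := by
            rw [← Real.log_inv, inv_div]
          rw [one_div, Real.log_inv]
          push_cast at h4
          linarith
        set ℓ : ℝ := Real.log (2 * C / q) with hℓ
        have hℓ0 : 0 ≤ ℓ := Real.log_nonneg (by rw [le_div_iff₀ hq0]; linarith)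
        have hℓ1 : ℓ < 2 / q - 1 := by
          rw [hℓ, Real.log_lt_iff_lt_exp (by positivity), div_lt_iff₀ hq0]
          calc 2 * C < 2 * (q / 2 * Real.exp (2 / q - 1)) := by linarith
            _ = Real.exp (2 / q - 1) * q := by ring
        have hmain : q / 2 * (1 + ℓ) < 1 := by
          have : q / 2 * (1 + ℓ) < q / 2 * (2 / q) := by
            apply mul_lt_mul_of_pos_left _ (by positivity)
            linarith
          calc _ < q / 2 * (2 / q) := this
            _ = 1 := by field_simp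
        -- choose `ε`
        set ε : ℝ := (1 - q / 2 * (1 + ℓ)) / (ℓ + 1) with hε
        have hε0 : 0 < ε := by
          apply div_pos <;> linarith
        refine ⟨c, hc0, hc1, q / 2 * (1 + ℓ) + ε * (1 / 2 * ℓ), ?_, ?_⟩
        · have h6 : ε * (1 / 2 * ℓ) < 1 - q / 2 * (1 + ℓ) := by
            have h7 : ε * (ℓ + 1) = 1 - q / 2 * (1 + ℓ) := by
              rw [hε]; field_simp
            nlinarith
          linarith
        · have h8 := hfreq (q + ε) (by rw [hq]; exact_mod_cast (by linarith : q < q + ε))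
          apply (h8.and_eventually (hlog.eventually_gt_atTop 0)).mono
          rintro n ⟨hn, hn0⟩
          rw [hlogc, hc2]
          have h9 : (k n : ℝ) * (1 / 2 * ℓ) ≤ (q + ε) * Real.log n * (1 / 2 * ℓ) :=
            mul_le_mul_of_nonneg_right hn (by positivity)
          have h10 : q / (2 * C) * C = q / 2 := by field_simp
          rw [h10]
          nlinarith
    · rw [if_neg h2] at hC
      exact htriv (by exact_mod_cast hC)

lemma window (k : ℕ → ℕ) (C : ℝ) (hC0 : 0 < C) (hC : (C : EReal) < cramerConst (rate k)) (N : ℕ) :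
    ∃ (b L a : ℕ) (c : ℝ), N < b ∧ 1 ≤ L ∧ 0 < c ∧ c ≤ 1 ∧ C * (Real.log b) ^ 2 ≤ L ∧ N ≤ a ∧
      8 ≤ a ∧ Real.log b ≤ ((b / L - a : ℕ) : ℝ) ∧
      1 ≤ ((b / L - a : ℕ) : ℝ) *
        (c ^ (k b + 1) * Real.exp (-(c ^ 2 * (L / Real.log a) + 3 * (L / (Real.log a) ^ 2)))) := by
  have hlog : Tendsto (fun x : ℕ => Real.log (x : ℝ)) atTop atTop :=
    Real.tendsto_log_atTop.comp tendsto_natCast_atTop_atTop
  obtain ⟨c, hc0, hc1, e, he1, hfreq⟩ := exponent_exists k C hC0 hC
  set q : ℝ := c ^ 2 * C with hq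
  have hq0 : 0 < q := by positivity
  set ε : ℝ := min (1 / 2) ((1 - e) / (2 * (1 + 4 * q))) with hε
  have hg : 0 < 1 - e := by linarith
  have hε0 : 0 < ε := by positivity
  have hε1 : ε ≤ 1 / 2 := min_le_left _ _
  have hε2 : ε / 2 + q * ε / (1 - ε) ≤ (1 - e) / 4 := by
    have h1 : ε ≤ (1 - e) / (2 * (1 + 4 * q)) := min_le_right _ _
    have h2 : q * ε / (1 - ε) ≤ 2 * q * ε := by
      rw [div_le_iff₀ (by linarith)]
      nlinarith [mul_pos hq0 hε0]
    have h3 : ε * (1 + 4 * q) ≤ (1 - e) / 2 := by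
      rw [le_div_iff₀ (by positivity)] at h1
      linarith
    nlinarith
  set K : ℝ := 14 + 12 * C + Real.log (1 / c) with hK
  -- eventual statements
  have hpow : ∀ s : ℝ, 0 < s → Tendsto (fun b : ℕ => (b : ℝ) ^ s) atTop atTop := fun s hs =>
    (tendsto_rpow_atTop hs).comp tendsto_natCast_atTop_atTop
  have hlogpow : ∀ s : ℝ, 0 < s → ∀ M : ℝ, 0 < M →
      ∀ᶠ b : ℕ in atTop, M * (Real.log b) ^ 2 ≤ (b : ℝ) ^ s := by
    intro s hs M hM
    have h1 := (isLittleO_log_rpow_rpow_atTop (s := s) 2 hs).bound (c := 1 / M) (by positivity)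
    have h2 := tendsto_natCast_atTop_atTop (R := ℝ) |>.eventually h1
    filter_upwards [h2, eventually_ge_atTop 1] with b hb hb1
    have hb0 : (0 : ℝ) < b := by exact_mod_cast hb1
    have h3 : 0 ≤ Real.log (b : ℝ) := Real.log_natCast_nonneg b
    rw [Real.norm_of_nonneg (by positivity), Real.norm_of_nonneg (by positivity),
      Real.rpow_two, div_mul_eq_mul_div, one_mul, le_div_iff₀ hM] at hb
    linarith
  have ev1 : ∀ᶠ b : ℕ in atTop, (3 : ℝ) ≤ (b : ℝ) ^ (ε / 4) :=
    (hpow (ε / 4) (by positivity)).eventually_ge_atTop 3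
  have ev2 : ∀ᶠ b : ℕ in atTop, (C + 1) * (Real.log b) ^ 2 ≤ (b : ℝ) ^ (ε / 4) :=
    hlogpow (ε / 4) (by positivity) (C + 1) (by positivity)
  have ev3 : ∀ᶠ b : ℕ in atTop, (2 : ℝ) ≤ (b : ℝ) ^ (1 - ε / 2) :=
    (hpow (1 - ε / 2) (by linarith)).eventually_ge_atTop 2
  have ev4 : ∀ᶠ b : ℕ in atTop, (max N 8 : ℝ) ≤ (b : ℝ) ^ (1 - ε) :=
    (hpow (1 - ε) (by linarith)).eventually_ge_atTop _
  have ev5 : ∀ᶠ b : ℕ in atTop, (1 : ℝ) ≤ Real.log b := hlog.eventually_ge_atTop 1
  have ev6 : ∀ᶠ b : ℕ in atTop, K / (3 * (1 - e) / 4) ≤ Real.log b := hlog.eventually_ge_atTop _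
  have ev7 : ∀ᶠ b : ℕ in atTop, 1 * (Real.log b) ^ 2 ≤ (b : ℝ) ^ (1 - ε / 2) :=
    hlogpow (1 - ε / 2) (by linarith) 1 one_pos
  have hall := (hfreq.and_eventually (((((((ev1.and ev2).and ev3).and ev4).and ev5).and ev6).and
    ev7).and (eventually_gt_atTop N)))
  obtain ⟨b, hb, ⟨⟨⟨⟨⟨⟨⟨h1, h2⟩, h3⟩, h4⟩, h5⟩, h6⟩, h7⟩, h8⟩⟩ := hall.exists
  set ℓ : ℝ := Real.log b with hℓ
  have hb0 : (0 : ℝ) < b := by
    by_contra hcon
    push Not at hcon
    have : (b : ℝ) = 0 := le_antisymm hcon (Nat.cast_nonneg b)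
    rw [hℓ, this, Real.log_zero] at h5
    linarith
  set L : ℕ := ⌈C * ℓ ^ 2⌉₊ with hL
  set a : ℕ := ⌈(b : ℝ) ^ (1 - ε)⌉₊ with ha
  have hL1 : C * ℓ ^ 2 ≤ L := Nat.le_ceil _
  have hLpos : 1 ≤ L := by
    rw [hL, Nat.one_le_ceil_iff]; positivity
  have hL2 : (L : ℝ) ≤ C * ℓ ^ 2 + 1 := (Nat.ceil_lt_add_one (by positivity)).le
  have hL3 : (L : ℝ) ≤ (b : ℝ) ^ (ε / 4) := by nlinarith
  have ha1 : (b : ℝ) ^ (1 - ε) ≤ a := Nat.le_ceil _
  have ha2 : (a : ℝ) ≤ (b : ℝ) ^ (1 - ε) + 1 := (Nat.ceil_lt_add_one (by positivity)).le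
  have ha3 : (8 : ℝ) ≤ a := le_trans (le_trans (le_max_right _ _) h4) ha1
  have ha4 : (N : ℝ) ≤ a := le_trans (le_trans (le_max_left _ _) h4) ha1
  have hloga : (1 - ε) * ℓ ≤ Real.log a := by
    rw [hℓ, ← Real.log_rpow hb0]
    exact Real.log_le_log (by positivity) ha1
  -- the number of blocks
  have hcount : (b : ℝ) ^ (1 - ε / 2) ≤ ((b / L - a : ℕ) : ℝ) := by
    have e1 : (b : ℝ) / L - 1 ≤ ((b / L : ℕ) : ℝ) := by
      have := Nat.lt_floor_add_one ((b : ℝ) / L)
      rw [Nat.floor_div_natCast, Nat.floor_natCast] at this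
      linarith
    have e2 : ((b / L : ℕ) : ℝ) - a ≤ ((b / L - a : ℕ) : ℝ) := by
      rw [sub_le_iff_le_add]
      exact_mod_cast le_tsub_add
    have e3 : (b : ℝ) ^ (1 - ε / 4) ≤ (b : ℝ) / L := by
      rw [le_div_iff₀ (by exact_mod_cast hLpos)]
      calc (b : ℝ) ^ (1 - ε / 4) * L ≤ (b : ℝ) ^ (1 - ε / 4) * (b : ℝ) ^ (ε / 4) :=
            mul_le_mul_of_nonneg_left hL3 (by positivity)
        _ = b := by rw [← Real.rpow_add hb0]; ring_nf; exact Real.rpow_one _
    have e4 : (b : ℝ) ^ (1 - ε / 4) = (b : ℝ) ^ (1 - ε / 2) * (b : ℝ) ^ (ε / 4) := by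
      rw [← Real.rpow_add hb0]; ring_nf
    have hb1 : (1 : ℝ) ≤ b := by
      by_contra hcon
      push Not at hcon
      have := Real.log_nonpos hb0.le hcon.le
      linarith
    have e5 : (b : ℝ) ^ (1 - ε) ≤ (b : ℝ) ^ (1 - ε / 2) :=
      Real.rpow_le_rpow_of_exponent_le hb1 (by linarith)
    have e6 : (b : ℝ) ^ (1 - ε / 2) * 3 ≤ (b : ℝ) ^ (1 - ε / 4) := by
      rw [e4]
      exact mul_le_mul_of_nonneg_left h1 (by positivity)
    linarith
  refine ⟨b, L, a, c, h8, hLpos, hc0, hc1, hL1, by exact_mod_cast ha4, by exact_mod_cast ha3,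
    ?_, ?_⟩
  · refine le_trans ?_ hcount
    refine le_trans ?_ h7
    nlinarith
  · set X : ℝ := c ^ 2 * (L / Real.log a) + 3 * (L / (Real.log a) ^ 2) with hX
    have hloga0 : 0 < (1 - ε) * ℓ := mul_pos (by linarith) (by linarith)
    have hloga1 : 1 / 2 * ℓ ≤ Real.log a := by nlinarith
    have hXle : X ≤ q * ℓ / (1 - ε) + (14 + 12 * C) := by
      have f1 : c ^ 2 * (L / Real.log a) ≤ q * ℓ / (1 - ε) + 2 := by
        have g1 : (L : ℝ) / Real.log a ≤ (C * ℓ ^ 2 + 1) / ((1 - ε) * ℓ) := by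
          apply div_le_div₀ (by positivity) hL2 hloga0 hloga
        have g2 : (C * ℓ ^ 2 + 1) / ((1 - ε) * ℓ) = C * ℓ / (1 - ε) + 1 / ((1 - ε) * ℓ) := by
          have : (1 - ε) ≠ 0 := by linarith
          field_simp
        have g3 : 1 / ((1 - ε) * ℓ) ≤ 2 := by
          rw [div_le_iff₀ hloga0]; nlinarith
        have g4 : c ^ 2 ≤ 1 := by nlinarith
        calc c ^ 2 * (L / Real.log a) ≤ c ^ 2 * (C * ℓ / (1 - ε) + 1 / ((1 - ε) * ℓ)) := by
              rw [← g2]; exact mul_le_mul_of_nonneg_left g1 (by positivity)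
          _ = q * ℓ / (1 - ε) + c ^ 2 * (1 / ((1 - ε) * ℓ)) := by rw [hq]; ring
          _ ≤ q * ℓ / (1 - ε) + 1 * 2 := by
              have : c ^ 2 * (1 / ((1 - ε) * ℓ)) ≤ 1 * 2 :=
                mul_le_mul g4 g3 (by positivity) (by norm_num)
              linarith
          _ = _ := by ring
      have f2 : 3 * (L / (Real.log a) ^ 2) ≤ 12 + 12 * C := by
        have g1 : (L : ℝ) / (Real.log a) ^ 2 ≤ (C * ℓ ^ 2 + 1) / (1 / 2 * ℓ) ^ 2 := by
          apply div_le_div₀ (by positivity) hL2 (by positivity)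
          gcongr
        have g2 : (C * ℓ ^ 2 + 1) / (1 / 2 * ℓ) ^ 2 ≤ 4 * C + 4 := by
          rw [div_le_iff₀ (by positivity)]
          nlinarith
        linarith
      linarith
    have hX' : Real.exp (-(q * ℓ / (1 - ε) + (14 + 12 * C))) ≤ Real.exp (-X) :=
      Real.exp_le_exp.mpr (by linarith)
    have hcpow : c ^ (k b + 1) = Real.exp (-((k b + 1) * Real.log (1 / c))) := by
      rw [one_div, Real.log_inv, mul_neg, neg_neg]
      have : ((k b : ℝ) + 1) * Real.log c = Real.log (c ^ (k b + 1)) := by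
        rw [Real.log_pow]; push_cast; ring
      rw [this, Real.exp_log (by positivity)]
    have hcountexp : Real.exp ((1 - ε / 2) * ℓ) ≤ ((b / L - a : ℕ) : ℝ) := by
      refine le_trans (le_of_eq ?_) hcount
      rw [Real.rpow_def_of_pos hb0, mul_comm]
    calc (1 : ℝ) = Real.exp 0 := Real.exp_zero.symm
      _ ≤ Real.exp ((1 - ε / 2) * ℓ + (-((k b + 1) * Real.log (1 / c)) +
            (-(q * ℓ / (1 - ε) + (14 + 12 * C))))) := by
          apply Real.exp_le_exp.mpr
          have g1 : K ≤ ℓ * (3 * (1 - e) / 4) := by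
            rw [div_le_iff₀ (by positivity)] at h6
            exact h6
          have g2 : q * ℓ / (1 - ε) = q * ℓ + q * ε / (1 - ε) * ℓ := by
            have : (1 - ε) ≠ 0 := by linarith
            field_simp
            ring
          have g3 : (ε / 2 + q * ε / (1 - ε)) * ℓ ≤ (1 - e) / 4 * ℓ :=
            mul_le_mul_of_nonneg_right hε2 (by linarith)
          rw [g2]
          rw [hK] at g1
          nlinarith
      _ = Real.exp ((1 - ε / 2) * ℓ) * (Real.exp (-((k b + 1) * Real.log (1 / c))) *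
            Real.exp (-(q * ℓ / (1 - ε) + (14 + 12 * C)))) := by
          rw [Real.exp_add, Real.exp_add]
      _ ≤ ((b / L - a : ℕ) : ℝ) * (Real.exp (-((k b + 1) * Real.log (1 / c))) *
            Real.exp (-X)) := by
          apply mul_le_mul hcountexp _ (by positivity) (Nat.cast_nonneg _)
          exact mul_le_mul_of_nonneg_left hX' (by positivity)
      _ = _ := by rw [hcpow]

end Pool.Agent.H1.LI
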